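import Mathlib

/-! # Foelner amenability of discrete groups and its closure properties. -/

set_option autoImplicit false

namespace Pool.Agent.Lib.MP98125f

open Finset

/-- The Foelner condition (left translations, arbitrary finite subsets of the group). -/
def Amen (G : Type*) [Group G] : Prop :=
  ∀ (S : Finset G) (m : ℕ), ∃ F : Finset G, F.Nonempty ∧
    ∀ g ∈ S, m * Set.ncard {x | x ∈ F ∧ g * x ∉ F} ≤ F.card

theorem ncard_filter {G : Type*} [Group G] [DecidableEq G] (F : Finset G) (g : G) :
    Set.ncard {x | x ∈ F ∧ g * x ∉ F} = (F.filter (fun x => g * x ∉ F)).card := by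
  rw [← Set.ncard_coe_finset]
  congr 1
  ext x
  simp

theorem amen_iff {G : Type*} [Group G] [DecidableEq G] : Amen G ↔
    ∀ (S : Finset G) (m : ℕ), ∃ F : Finset G, F.Nonempty ∧
      ∀ g ∈ S, m * (F.filter (fun x => g * x ∉ F)).card ≤ F.card := by
  unfold Amen
  simp only [ncard_filter]

/-- A finite group is amenable. -/
theorem Amen.of_finite (G : Type*) [Group G] [Finite G] : Amen G := by
  classical
  have := Fintype.ofFinite G
  rw [amen_iff]
  intro S m
  refine ⟨Finset.univ, Finset.univ_nonempty, fun g _ => ?_⟩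
  simp

/-- If every finite subset of `H` (embedded in `G`) has Foelner sets in `G` then `H` is amenable. -/
theorem Amen.of_local_injective {G H : Type*} [Group G] [Group H] [DecidableEq G] (φ : H →* G)
    (hφ : Function.Injective φ)
    (h : ∀ (S : Finset H) (m : ℕ), ∃ F : Finset G, F.Nonempty ∧
      ∀ g ∈ S, m * (F.filter (fun x => φ g * x ∉ F)).card ≤ F.card) : Amen H := by
  classical
  rw [amen_iff]
  intro S m
  obtain ⟨F, hF, hFS⟩ := h S (m * (S.card + 1))
  -- right cosets
  let r : Setoid G := QuotientGroup.rightRel φ.range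
  let cl : G → Quotient r := fun x => Quotient.mk r x
  have hcl : ∀ (g : H) (x : G), cl (φ g * x) = cl x := by
    intro g x
    apply Quotient.sound
    change r _ _
    rw [QuotientGroup.rightRel_apply]
    refine ⟨g⁻¹, ?_⟩
    simp
  -- sum over classes
  have hsum : ∑ c ∈ F.image cl, ∑ g ∈ S, m * ((F.filter (fun x => cl x = c)).filter
      (fun x => φ g * x ∉ F)).card ≤ ∑ c ∈ F.image cl, (F.filter (fun x => cl x = c)).card := by
    rw [← Finset.card_eq_sum_card_image, Finset.sum_comm]
    have h1 : ∀ g ∈ S, (∑ c ∈ F.image cl, m * ((F.filter (fun x => cl x = c)).filter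
      (fun x => φ g * x ∉ F)).card) * (S.card + 1) ≤ F.card := by
      intro g hg
      have h2 : ∑ c ∈ F.image cl, ((F.filter (fun x => cl x = c)).filter
          (fun x => φ g * x ∉ F)).card = (F.filter (fun x => φ g * x ∉ F)).card := by
        rw [Finset.card_eq_sum_card_fiberwise (f := cl) (s := F.filter (fun x => φ g * x ∉ F))
          (t := F.image cl)]
        · apply Finset.sum_congr rfl
          intro c _
          congr 1
          ext x
          simp only [Finset.mem_filter]
          tauto
        · intro x hx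
          simp only [Finset.coe_filter, Set.mem_ofPred_eq] at hx
          exact Finset.mem_coe.2 (Finset.mem_image_of_mem _ hx.1)
      rw [← Finset.mul_sum, h2]
      calc _ = m * (S.card + 1) * (F.filter (fun x => φ g * x ∉ F)).card := by ring
        _ ≤ _ := hFS g hg
    have h3 : (∑ g ∈ S, ∑ c ∈ F.image cl, m * ((F.filter (fun x => cl x = c)).filter
      (fun x => φ g * x ∉ F)).card) * (S.card + 1) ≤ F.card * (S.card + 1) := by
      rw [Finset.sum_mul]
      calc _ ≤ ∑ g ∈ S, F.card := Finset.sum_le_sum h1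
        _ = S.card * F.card := by simp
        _ ≤ _ := by nlinarith [Nat.zero_le F.card, Nat.zero_le S.card]
    exact Nat.le_of_mul_le_mul_right h3 (Nat.succ_pos _)
  -- choose a good class
  obtain ⟨c, hc, hcle⟩ : ∃ c ∈ F.image cl, ∑ g ∈ S, m * ((F.filter (fun x => cl x = c)).filter
      (fun x => φ g * x ∉ F)).card ≤ (F.filter (fun x => cl x = c)).card := by
    by_contra hcon
    push Not at hcon
    have := Finset.sum_lt_sum_of_nonempty (s := F.image cl) (hF.image _) hcon
    omega
  obtain ⟨x0, hx0, hx0c⟩ := Finset.mem_image.1 hc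
  -- pull back
  have hinj : Function.Injective (fun g : H => φ g * x0) :=
    fun a b hab => hφ (mul_right_cancel hab)
  obtain ⟨F', hF'⟩ : ∃ F' : Finset H, ∀ g, g ∈ F' ↔ φ g * x0 ∈ F :=
    ⟨F.preimage (fun g : H => φ g * x0) hinj.injOn, fun g => Finset.mem_preimage⟩
  have hcard : F'.card = (F.filter (fun x => cl x = c)).card := by
    have himg : F.filter (fun x => cl x = c) = F'.image (fun g : H => φ g * x0) := by
      ext y
      simp only [Finset.mem_filter, Finset.mem_image, hF']
      constructor
      · rintro ⟨hy, hyc⟩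
        rw [← hx0c] at hyc
        have h4 := Quotient.exact hyc
        change r _ _ at h4
        rw [QuotientGroup.rightRel_apply] at h4
        obtain ⟨g, hg⟩ := h4
        refine ⟨g⁻¹, ?_, ?_⟩
        · rw [map_inv, hg]; simpa using hy
        · rw [map_inv, hg]; simp
      · rintro ⟨g, hg, rfl⟩
        exact ⟨hg, by rw [hcl, hx0c]⟩
    rw [himg, Finset.card_image_of_injective _ hinj]
  refine ⟨F', ⟨1, by simp [hF', hx0]⟩, fun g hg => ?_⟩
  have hle1 : (F'.filter (fun x => g * x ∉ F')).card ≤
      ((F.filter (fun x => cl x = c)).filter (fun x => φ g * x ∉ F)).card := by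
    apply Finset.card_le_card_of_injOn (fun g : H => φ g * x0)
    · intro y hy
      simp only [Finset.coe_filter, Set.mem_ofPred_eq, hF'] at hy
      simp only [Finset.coe_filter, Finset.mem_filter, Set.mem_ofPred_eq]
      refine ⟨⟨hy.1, by rw [hcl, hx0c]⟩, ?_⟩
      have h5 := hy.2
      rwa [map_mul, mul_assoc] at h5
    · exact hinj.injOn
  calc m * (F'.filter (fun x => g * x ∉ F')).card
      ≤ m * ((F.filter (fun x => cl x = c)).filter (fun x => φ g * x ∉ F)).card :=
        Nat.mul_le_mul_left _ hle1
    _ ≤ ∑ g ∈ S, m * ((F.filter (fun x => cl x = c)).filter (fun x => φ g * x ∉ F)).card :=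
        Finset.single_le_sum (f := fun g => m * ((F.filter (fun x => cl x = c)).filter
          (fun x => φ g * x ∉ F)).card) (fun _ _ => Nat.zero_le _) hg
    _ ≤ _ := hcle
    _ = F'.card := hcard.symm

theorem Amen.of_injective {G H : Type*} [Group G] [Group H] (φ : H →* G)
    (hφ : Function.Injective φ) (hG : Amen G) : Amen H := by
  classical
  apply Amen.of_local_injective φ hφ
  intro S m
  obtain ⟨F, hF, h2⟩ := amen_iff.1 hG (S.image φ) m
  exact ⟨F, hF, fun g hg => h2 _ (Finset.mem_image_of_mem _ hg)⟩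

theorem Amen.subgroup {G : Type*} [Group G] (H : Subgroup G) (hG : Amen G) : Amen H :=
  Amen.of_injective H.subtype H.subtype_injective hG

theorem Amen.of_le {G : Type*} [Group G] {H K : Subgroup G} (h : H ≤ K) (hG : Amen K) : Amen H :=
  Amen.of_injective (Subgroup.inclusion h) (Subgroup.inclusion_injective h) hG

/-- Local amenability. -/
theorem Amen.of_locally {G : Type*} [Group G]
    (h : ∀ S : Finset G, Amen (Subgroup.closure (S : Set G))) : Amen G := by
  classical
  rw [amen_iff]
  intro S m
  have hS := h S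
  rw [amen_iff] at hS
  have hmem : ∀ g ∈ S, g ∈ Subgroup.closure (S : Set G) :=
    fun g hg => Subgroup.subset_closure hg
  generalize hH : Subgroup.closure (S : Set G) = H at hS hmem
  obtain ⟨F, hF, h2⟩ := hS (S.subtype (fun g => g ∈ H)) m
  refine ⟨F.map (Function.Embedding.subtype _), hF.map, fun g hg => ?_⟩
  have h3 := h2 ⟨g, hmem g hg⟩ (by simpa using hg)
  rw [Finset.card_map]
  refine le_trans (Nat.mul_le_mul_left _ ?_) h3
  rw [Finset.filter_map, Finset.card_map]
  apply Finset.card_le_card
  intro x hx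
  simp only [Finset.mem_filter] at hx ⊢
  refine ⟨hx.1, fun h4 => hx.2 ?_⟩
  simp only [Function.comp, Function.Embedding.coe_subtype, Finset.mem_map]
  exact ⟨_, h4, rfl⟩

/-- Extensions. -/
theorem Amen.of_ker_range {G Q : Type*} [Group G] [Group Q] (φ : G →* Q)
    (hK : Amen φ.ker) (hR : Amen φ.range) : Amen G := by
  classical
  rw [amen_iff]
  intro S m
  obtain ⟨F2, hF2, h2⟩ := amen_iff.1 hR (S.image φ.rangeRestrict) (2 * m)
  -- section
  have hsec : ∀ q : φ.range, ∃ g : G, φ.rangeRestrict g = q :=
    fun q => φ.rangeRestrict_surjective q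
  choose s hs using hsec
  let nn : G → φ.range → G := fun g q => (s (φ.rangeRestrict g * q))⁻¹ * (g * s q)
  have hnn : ∀ g q, nn g q ∈ φ.ker := by
    intro g q
    rw [MonoidHom.mem_ker]
    have h3 : φ.rangeRestrict (nn g q) = 1 := by
      simp [nn, hs]
    exact congrArg Subtype.val h3
  let n' : G → φ.range → φ.ker := fun g q => ⟨nn g q, hnn g q⟩
  let T : Finset φ.ker := (S ×ˢ F2).image (fun p => n' p.1 p.2)
  obtain ⟨F1, hF1, h1⟩ := amen_iff.1 hK T (2 * m)
  let e : φ.range × φ.ker → G := fun p => s p.1 * (p.2 : G)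
  have he : Function.Injective e := by
    rintro ⟨q, n⟩ ⟨q', n'⟩ h
    simp only [e] at h
    have h3 := congrArg φ.rangeRestrict h
    have hn : φ.rangeRestrict (n : G) = 1 := Subtype.ext (by
      have := n.2; rw [MonoidHom.mem_ker] at this; simpa using this)
    have hn' : φ.rangeRestrict (n' : G) = 1 := Subtype.ext (by
      have := n'.2; rw [MonoidHom.mem_ker] at this; simpa using this)
    rw [map_mul, map_mul, hs, hs, hn, hn', mul_one, mul_one] at h3
    subst h3
    have h4 := mul_left_cancel h
    exact Prod.ext rfl (Subtype.ext h4)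
  refine ⟨(F2 ×ˢ F1).image e, (hF2.product hF1).image _, fun g hg => ?_⟩
  rw [Finset.card_image_of_injective _ he, Finset.card_product]
  have hkey : (((F2 ×ˢ F1).image e).filter (fun x => g * x ∉ (F2 ×ˢ F1).image e)).card ≤
      (F2.filter (fun q => φ.rangeRestrict g * q ∉ F2)).card * F1.card +
      ∑ q ∈ F2, (F1.filter (fun n => n' g q * n ∉ F1)).card := by
    have hsub : ((F2 ×ˢ F1).image e).filter (fun x => g * x ∉ (F2 ×ˢ F1).image e) ⊆
        (((F2.filter (fun q => φ.rangeRestrict g * q ∉ F2)) ×ˢ F1).image e) ∪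
        ((F2.biUnion (fun q => (F1.filter (fun n => n' g q * n ∉ F1)).image
          (fun n => e (q, n))))) := by
      intro x hx
      simp only [Finset.mem_filter, Finset.mem_image, Finset.mem_product, Prod.exists] at hx
      obtain ⟨⟨q, n, ⟨hq, hn⟩, rfl⟩, h3⟩ := hx
      simp only [Finset.mem_union, Finset.mem_image, Finset.mem_product, Finset.mem_filter,
        Prod.exists, Finset.mem_biUnion]
      by_cases h4 : φ.rangeRestrict g * q ∈ F2
      · right
        refine ⟨q, hq, n, ⟨hn, fun h5 => h3 ?_⟩, rfl⟩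
        refine ⟨φ.rangeRestrict g * q, n' g q * n, ⟨h4, h5⟩, ?_⟩
        simp only [e, n', nn, Subgroup.coe_mul]
        group
      · left
        exact ⟨q, n, ⟨⟨hq, h4⟩, hn⟩, rfl⟩
    refine (Finset.card_le_card hsub).trans ((Finset.card_union_le _ _).trans ?_)
    apply Nat.add_le_add
    · exact Finset.card_image_le.trans (by rw [Finset.card_product])
    · refine Finset.card_biUnion_le.trans (Finset.sum_le_sum fun q _ => Finset.card_image_le)
  have ha : 2 * m * (F2.filter (fun q => φ.rangeRestrict g * q ∉ F2)).card ≤ F2.card :=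
    h2 _ (Finset.mem_image_of_mem _ hg)
  have hb : ∀ q ∈ F2, 2 * m * (F1.filter (fun n => n' g q * n ∉ F1)).card ≤ F1.card := by
    intro q hq
    apply h1
    exact Finset.mem_image.2 ⟨(g, q), Finset.mem_product.2 ⟨hg, hq⟩, rfl⟩
  have hb' : 2 * m * ∑ q ∈ F2, (F1.filter (fun n => n' g q * n ∉ F1)).card ≤
      F2.card * F1.card := by
    rw [Finset.mul_sum]
    calc _ ≤ ∑ q ∈ F2, F1.card := Finset.sum_le_sum hb
      _ = _ := by simp
  have hfin : 2 * (m * (((F2 ×ˢ F1).image e).filter
      (fun x => g * x ∉ (F2 ×ˢ F1).image e)).card) ≤ 2 * (F2.card * F1.card) := by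
    calc _ ≤ 2 * (m * ((F2.filter (fun q => φ.rangeRestrict g * q ∉ F2)).card * F1.card +
        ∑ q ∈ F2, (F1.filter (fun n => n' g q * n ∉ F1)).card)) := by gcongr
      _ = (2 * m * (F2.filter (fun q => φ.rangeRestrict g * q ∉ F2)).card) * F1.card +
        2 * m * ∑ q ∈ F2, (F1.filter (fun n => n' g q * n ∉ F1)).card := by ring
      _ ≤ F2.card * F1.card + F2.card * F1.card := by gcongr
      _ = _ := by ring
  omega

end Pool.Agent.Lib.MP98125f
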