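import Mathlib
import Pool.Agent.Lib.MP_98125f_al.Amen

/-! # Amenability of commutative groups, invariant means, and finiteness from bounded orbits. -/

set_option autoImplicit false

namespace Pool.Agent.Lib.MP98125f

open Finset Filter Topology

/-- Commutative groups satisfy the Foelner condition. -/
theorem Amen.of_comm {G : Type*} [Group G] (hc : ∀ a b : G, a * b = b * a) : Amen G := by
  classical
  let _ : CommGroup G := { (inferInstance : Group G) with mul_comm := hc }
  rw [amen_iff]
  intro S m
  let f : (S → ℕ) → G := fun a => ∏ i : S, (i : G) ^ a i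
  let B : ℕ → Finset G := fun N => (Fintype.piFinset (fun _ : S => Finset.range N)).image f
  have hmono : ∀ N, B N ⊆ B (N + 1) := by
    intro N
    apply Finset.image_subset_image
    intro a ha
    rw [Fintype.mem_piFinset] at ha ⊢
    intro i
    have := ha i
    rw [Finset.mem_range] at this ⊢
    omega
  have hshift : ∀ N, ∀ g ∈ S, ∀ x ∈ B N, g * x ∈ B (N + 1) := by
    intro N g hg x hx
    obtain ⟨a, ha, rfl⟩ := Finset.mem_image.1 hx
    refine Finset.mem_image.2 ⟨fun i => a i + if i = ⟨g, hg⟩ then 1 else 0, ?_, ?_⟩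
    · rw [Fintype.mem_piFinset] at ha ⊢
      intro i
      have := ha i
      rw [Finset.mem_range] at this ⊢
      split_ifs <;> omega
    · simp only [f, pow_add, Finset.prod_mul_distrib]
      rw [mul_comm]
      congr 1
      rw [Finset.prod_eq_single (⟨g, hg⟩ : S)]
      · simp
      · intro b _ hb
        simp [hb]
      · intro h; exact absurd (Finset.mem_univ _) h
  have hcard : ∀ N, (B N).card ≤ N ^ S.card := by
    intro N
    refine Finset.card_image_le.trans ?_
    rw [Fintype.card_piFinset]
    simp
  have hne : ∀ N, (B (N + 1)).Nonempty := by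
    intro N
    refine Finset.Nonempty.image ⟨fun _ => 0, ?_⟩ _
    rw [Fintype.mem_piFinset]
    intro i
    simp
  by_contra hcon
  push Not at hcon
  -- growth
  have hgrow : ∀ N, (B (N + 1)).card * (m + 1) ≤ (B (N + 2)).card * m := by
    intro N
    obtain ⟨g, hg, hlt⟩ := hcon (B (N + 1)) (hne N)
    have h1 : ((B (N + 1)).filter (fun x => g * x ∉ B (N + 1))).card ≤
        ((B (N + 2)) \ (B (N + 1))).card := by
      apply Finset.card_le_card_of_injOn (fun x => g * x)
      · intro x hx
        simp only [Finset.coe_filter, Set.mem_ofPred_eq] at hx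
        simp only [Finset.coe_sdiff, Set.mem_sdiff, Finset.mem_coe]
        exact ⟨hshift _ g hg x hx.1, hx.2⟩
      · intro a _ b _ hab
        exact mul_left_cancel hab
    have h2 : ((B (N + 2)) \ (B (N + 1))).card = (B (N + 2)).card - (B (N + 1)).card :=
      Finset.card_sdiff_of_subset (hmono _)
    have h3 := Finset.card_le_card (hmono (N + 1))
    have h4 : (B (N + 1)).card < m * ((B (N + 2)).card - (B (N + 1)).card) :=
      lt_of_lt_of_le hlt (Nat.mul_le_mul_left _ (h1.trans h2.le))
    obtain ⟨c, hc⟩ := Nat.exists_eq_add_of_le h3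
    rw [show N + 1 + 1 = N + 2 from rfl] at hc
    rw [hc] at h4 ⊢
    rw [Nat.add_sub_cancel_left] at h4
    nlinarith
  have hm : 0 < m := by
    rcases Nat.eq_zero_or_pos m with h | h
    · exfalso
      obtain ⟨g, hg, hlt⟩ := hcon (B 1) (hne 0)
      rw [h] at hlt
      simp at hlt
    · exact h
  have hmR : (0 : ℝ) < m := by exact_mod_cast hm
  have hpow : ∀ N : ℕ, (1 + 1 / (m : ℝ)) ^ N ≤ ((B (N + 1)).card : ℝ) := by
    intro N
    induction N with
    | zero =>
      simp only [pow_zero]
      have := Finset.card_pos.2 (hne 0)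
      exact_mod_cast this
    | succ N ih =>
      have h5 : ((B (N + 1)).card : ℝ) * (m + 1) ≤ (B (N + 2)).card * m := by
        exact_mod_cast hgrow N
      rw [pow_succ]
      calc (1 + 1 / (m : ℝ)) ^ N * (1 + 1 / (m : ℝ)) ≤ (B (N + 1)).card * (1 + 1 / (m : ℝ)) := by
            gcongr
        _ = (B (N + 1)).card * (m + 1) / m := by field_simp
        _ ≤ (B (N + 2)).card * m / m := by gcongr
        _ = _ := by field_simp
  have hlim := tendsto_pow_const_div_const_pow_of_one_lt S.card
    (r := 1 + 1 / (m : ℝ)) (by have : 0 < 1 / (m : ℝ) := by positivity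
                               linarith)
  have hr : (0 : ℝ) < 1 + 1 / (m : ℝ) := by positivity
  have h6 : ∀ᶠ n : ℕ in atTop, (n : ℝ) ^ S.card / (1 + 1 / (m : ℝ)) ^ n <
      1 / (1 + 1 / (m : ℝ)) :=
    hlim.eventually_lt_const (by positivity)
  obtain ⟨n, hn1, hn2⟩ := (h6.and (eventually_ge_atTop 1)).exists
  obtain ⟨k, rfl⟩ : ∃ k, n = k + 1 := ⟨n - 1, by omega⟩
  rw [div_lt_div_iff₀ (by positivity) hr] at hn1
  have h7 := hpow k
  have h8 : ((B (k + 1)).card : ℝ) ≤ ((k + 1 : ℕ) : ℝ) ^ S.card := by exact_mod_cast hcard (k + 1)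
  have h9 : (1 + 1 / (m : ℝ)) ^ (k + 1) ≤ ((k + 1 : ℕ) : ℝ) ^ S.card * (1 + 1 / (m : ℝ)) := by
    rw [pow_succ]
    gcongr
    exact h7.trans h8
  linarith

/-- The kernel part and an abelian quotient. -/
theorem Amen.of_ker_comm {G Q : Type*} [Group G] [Group Q] (φ : G →* Q)
    (hK : Amen φ.ker) (hc : ∀ a b : Q, a * b = b * a) : Amen G :=
  Amen.of_ker_range φ hK (Amen.of_comm (fun a b => Subtype.ext (hc a b)))

/-- Invariant mean from the Foelner condition. -/
theorem Amen.exists_mean {G : Type*} [Group G] (hG : Amen G) :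
    ∃ μ : Set G → ℝ, (∀ A, 0 ≤ μ A) ∧ μ Set.univ = 1 ∧
      (∀ A B, Disjoint A B → μ (A ∪ B) = μ A + μ B) ∧
      (∀ (g : G) (A : Set G), μ ((fun x => g * x) '' A) = μ A) := by
  classical
  rw [amen_iff] at hG
  choose F hFne hF using fun p : Finset G × ℕ => hG p.1 p.2
  let V : Ultrafilter (Finset G × ℕ) := Ultrafilter.of atTop
  have hV : (V : Filter (Finset G × ℕ)) ≤ atTop := Ultrafilter.of_le _
  let r : Set G → (Finset G × ℕ) → ℝ := fun A p =>
    ((F p).filter (fun x => x ∈ A)).card / ((F p).card : ℝ)
  have hpos : ∀ p, (0 : ℝ) < (F p).card := fun p => by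
    exact_mod_cast Finset.card_pos.2 (hFne p)
  have hr : ∀ A p, r A p ∈ Set.Icc (0 : ℝ) 1 := by
    intro A p
    refine ⟨by positivity, ?_⟩
    simp only [r]
    rw [div_le_one (hpos p)]
    exact_mod_cast Finset.card_filter_le _ _
  have hlim : ∀ A, ∃ x ∈ Set.Icc (0 : ℝ) 1, Tendsto (r A) V (𝓝 x) := by
    intro A
    obtain ⟨x, hx, hle⟩ := (isCompact_Icc (a := (0 : ℝ)) (b := 1)).ultrafilter_le_nhds
      (V.map (r A)) (by
        rw [Ultrafilter.coe_map, le_principal_iff, Filter.mem_map]
        exact Filter.univ_mem' (hr A))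
    exact ⟨x, hx, by rwa [Ultrafilter.coe_map] at hle⟩
  choose μ hμ1 hμ using hlim
  refine ⟨μ, fun A => (hμ1 A).1, ?_, ?_, ?_⟩
  · have h1 : r Set.univ = fun _ => 1 := by
      funext p
      simp only [r, Set.mem_univ, Finset.filter_true]
      exact div_self (hpos p).ne'
    have h2 := hμ Set.univ
    rw [h1] at h2
    exact tendsto_nhds_unique h2 tendsto_const_nhds
  · intro A B hAB
    have h1 : r (A ∪ B) = fun p => r A p + r B p := by
      funext p
      simp only [r]
      rw [← add_div]
      congr 1
      rw [← Nat.cast_add]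
      congr 1
      rw [← Finset.card_union_of_disjoint]
      · congr 1
        ext x
        simp only [Finset.mem_filter, Set.mem_union, Finset.mem_union]
        tauto
      · rw [Finset.disjoint_left]
        intro x hx hx'
        exact (Set.disjoint_left.1 hAB) (Finset.mem_filter.1 hx).2 (Finset.mem_filter.1 hx').2
    have h2 := hμ (A ∪ B)
    rw [h1] at h2
    exact tendsto_nhds_unique h2 ((hμ A).add (hμ B))
  · intro g A
    have h1 : ∀ᶠ p in atTop, |r ((fun x => g * x) '' A) p - r A p| ≤
        1 / ((p : Finset G × ℕ).2 : ℝ) := by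
      filter_upwards [eventually_ge_atTop (({g, g⁻¹} : Finset G), 1)] with p hp
      have hg1 : g ∈ p.1 := hp.1 (by simp)
      have hg2 : g⁻¹ ∈ p.1 := hp.1 (by simp)
      have hp2 : 1 ≤ p.2 := hp.2
      have ha := hF p g hg1
      have hb := hF p g⁻¹ hg2
      have hmem : ∀ x, x ∈ (fun x => g * x) '' A ↔ g⁻¹ * x ∈ A := by
        intro x
        constructor
        · rintro ⟨y, hy, rfl⟩; simpa using hy
        · intro h; exact ⟨g⁻¹ * x, h, by simp⟩
      have h3 : ((F p).filter (fun x => x ∈ (fun x => g * x) '' A)).card ≤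
          ((F p).filter (fun x => x ∈ A)).card +
            ((F p).filter (fun x => g⁻¹ * x ∉ F p)).card := by
        have h31 : (F p).filter (fun x => x ∈ (fun x => g * x) '' A) ⊆
            (((F p).filter (fun x => x ∈ A)).image (fun x => g * x)) ∪
              ((F p).filter (fun x => g⁻¹ * x ∉ F p)) := by
          intro x hx
          rw [Finset.mem_filter, hmem] at hx
          rw [Finset.mem_union, Finset.mem_image, Finset.mem_filter]
          by_cases h : g⁻¹ * x ∈ F p
          · left; exact ⟨g⁻¹ * x, Finset.mem_filter.2 ⟨h, hx.2⟩, by simp⟩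
          · right; exact ⟨hx.1, h⟩
        refine (Finset.card_le_card h31).trans ((Finset.card_union_le _ _).trans ?_)
        exact Nat.add_le_add_right Finset.card_image_le _
      have h4 : ((F p).filter (fun x => x ∈ A)).card ≤
          ((F p).filter (fun x => x ∈ (fun x => g * x) '' A)).card +
            ((F p).filter (fun x => g * x ∉ F p)).card := by
        have h41 : (F p).filter (fun x => x ∈ A) ⊆
            (((F p).filter (fun x => x ∈ (fun x => g * x) '' A)).image (fun x => g⁻¹ * x)) ∪
              ((F p).filter (fun x => g * x ∉ F p)) := by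
          intro x hx
          rw [Finset.mem_filter] at hx
          rw [Finset.mem_union, Finset.mem_image, Finset.mem_filter]
          by_cases h : g * x ∈ F p
          · left
            exact ⟨g * x, Finset.mem_filter.2 ⟨h, by rw [hmem]; simpa using hx.2⟩, by simp⟩
          · right; exact ⟨hx.1, h⟩
        refine (Finset.card_le_card h41).trans ((Finset.card_union_le _ _).trans ?_)
        exact Nat.add_le_add_right Finset.card_image_le _
      simp only [r]
      rw [← sub_div, abs_div, abs_of_pos (hpos p), div_le_div_iff₀ (hpos p)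
        (by exact_mod_cast hp2)]
      have h5 : |(((F p).filter (fun x => x ∈ (fun x => g * x) '' A)).card : ℝ) -
          ((F p).filter (fun x => x ∈ A)).card| * p.2 ≤ (F p).card := by
        have hp3 : (0 : ℝ) < p.2 := by exact_mod_cast hp2
        rw [← le_div_iff₀ hp3, abs_le]
        constructor
        · have h6 : ((F p).filter (fun x => g * x ∉ F p)).card ≤ ((F p).card : ℝ) / p.2 := by
            rw [le_div_iff₀ hp3, mul_comm]; exact_mod_cast ha
          have h7 : (((F p).filter (fun x => x ∈ A)).card : ℝ) ≤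
            ((F p).filter (fun x => x ∈ (fun x => g * x) '' A)).card +
            ((F p).filter (fun x => g * x ∉ F p)).card := by exact_mod_cast h4
          linarith
        · have h6 : ((F p).filter (fun x => g⁻¹ * x ∉ F p)).card ≤ ((F p).card : ℝ) / p.2 := by
            rw [le_div_iff₀ hp3, mul_comm]; exact_mod_cast hb
          have h7 : (((F p).filter (fun x => x ∈ (fun x => g * x) '' A)).card : ℝ) ≤
            ((F p).filter (fun x => x ∈ A)).card +
            ((F p).filter (fun x => g⁻¹ * x ∉ F p)).card := by exact_mod_cast h3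
          linarith
      linarith
    have h2 : Tendsto (fun p : Finset G × ℕ => 1 / (p.2 : ℝ)) atTop (𝓝 0) := by
      have h3 : Tendsto (fun p : Finset G × ℕ => p.2) atTop atTop := by
        rw [← prod_atTop_atTop_eq]
        exact tendsto_snd
      exact (tendsto_one_div_atTop_nhds_zero_nat).comp h3
    have h4 : Tendsto (fun p => r ((fun x => g * x) '' A) p - r A p) V (𝓝 0) := by
      rw [tendsto_zero_iff_abs_tendsto_zero]
      refine squeeze_zero' (Eventually.of_forall fun p => abs_nonneg _) (hV h1) (h2.mono_left hV)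
    have h5 := (hμ ((fun x => g * x) '' A)).sub (hμ A)
    have h6 := tendsto_nhds_unique h4 h5
    linarith

/-- A finitely generated group acting faithfully with uniformly bounded orbits is finite. -/
theorem finite_of_bounded_orbits {Γ X : Type*} [Group Γ] [MulAction Γ X] [FaithfulSMul Γ X]
    (S : Set Γ) (hS : S.Finite) (hcl : Subgroup.closure S = ⊤) (M : ℕ)
    (h : ∀ x : X, (MulAction.orbit Γ x).Finite ∧ (MulAction.orbit Γ x).ncard ≤ M) : Finite Γ := by
  classical
  have h1 : Finite (Γ →* Equiv.Perm (Fin M)) := by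
    have := hS.to_subtype
    apply Finite.of_injective (fun (f : Γ →* Equiv.Perm (Fin M)) (s : S) => f s)
    intro f g hfg
    apply MonoidHom.eq_of_eqOn_dense hcl
    intro x hx
    exact congrFun hfg ⟨x, hx⟩
  apply Finite.of_injective (fun (γ : Γ) (f : Γ →* Equiv.Perm (Fin M)) => f γ)
  intro a b hab
  by_contra hne
  have hne' : b⁻¹ * a ≠ 1 := fun h => hne (by rw [inv_mul_eq_one] at h; exact h.symm)
  obtain ⟨x, hx⟩ : ∃ x : X, (b⁻¹ * a) • x ≠ x := by
    by_contra hcon
    push Not at hcon
    apply hne'
    apply FaithfulSMul.eq_of_smul_eq_smul (α := X)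
    intro x
    rw [hcon, one_smul]
  obtain ⟨hfin, hcard⟩ := h x
  have := hfin.fintype
  have hcard' : Fintype.card (MulAction.orbit Γ x) ≤ Fintype.card (Fin M) := by
    rw [Fintype.card_fin, ← Nat.card_eq_fintype_card]
    exact hcard
  obtain ⟨e⟩ := Function.Embedding.nonempty_of_card_le hcard'
  let f : Γ →* Equiv.Perm (Fin M) :=
    (Equiv.Perm.viaEmbeddingHom e).comp (MulAction.toPermHom Γ (MulAction.orbit Γ x))
  have h2 : f a = f b := congrFun hab f
  have h3 : f (b⁻¹ * a) = 1 := by rw [map_mul, map_inv, h2]; simp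
  have h4 : MulAction.toPermHom Γ (MulAction.orbit Γ x) (b⁻¹ * a) = 1 := by
    apply Equiv.Perm.viaEmbeddingHom_injective e
    rw [map_one]
    exact h3
  apply hx
  have h5 := congrArg (fun p : Equiv.Perm (MulAction.orbit Γ x) =>
    ((p ⟨x, MulAction.mem_orbit_self x⟩ : MulAction.orbit Γ x) : X)) h4
  simpa using h5

end Pool.Agent.Lib.MP98125f
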