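import Mathlib

/-! # Piecewise translations of a linearly ordered group. -/

set_option autoImplicit false

namespace Pool.Agent.Lib.MP98125f

variable {R : Type*} [AddCommGroup R] [LinearOrder R]

/-- `g` has its breakpoints in the finite set `B`: the displacement `g x - x` does not change
between `x` and `y` if no element of `B` lies in `(x, y]`. -/
def Trans (B : Finset R) (g : Equiv.Perm R) : Prop :=
  ∀ x y : R, x ≤ y → (∀ b ∈ B, ¬ (x < b ∧ b ≤ y)) → g y - y = g x - x

theorem Trans.mono {B C : Finset R} {g : Equiv.Perm R} (h : Trans B g) (hBC : B ⊆ C) :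
    Trans C g :=
  fun x y hxy hC => h x y hxy fun b hb => hC b (hBC hb)

theorem Trans.one : Trans (∅ : Finset R) 1 := by
  intro x y _ _
  simp

variable [IsOrderedAddMonoid R]

theorem Trans.mul {B C : Finset R} {g h : Equiv.Perm R} (hg : Trans B g) (hh : Trans C h) :
    ∃ D : Finset R, Trans D (g * h) := by
  classical
  refine ⟨C ∪ B.image h.symm, ?_⟩
  intro x y hxy hD
  have h1 : h y - y = h x - x := hh x y hxy fun b hb => hD b (Finset.mem_union_left _ hb)
  have h11 : h y - h x = y - x := sub_eq_sub_iff_sub_eq_sub.1 h1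
  have h2 : g (h y) - h y = g (h x) - h x := by
    apply hg
    · have h3 : 0 ≤ h y - h x := by rw [h11]; exact sub_nonneg.2 hxy
      exact sub_nonneg.1 h3
    · intro b hb hcon
      -- z = x + (b - h x)
      have hz1 : x < x + (b - h x) := lt_add_of_pos_right _ (sub_pos.2 hcon.1)
      have hz2 : x + (b - h x) ≤ y := by
        have : y = x + (h y - h x) := by
          rw [h11]; abel
        calc x + (b - h x) ≤ x + (h y - h x) := by
              gcongr
              exact hcon.2
          _ = y := this.symm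
      have h4 : h (x + (b - h x)) - (x + (b - h x)) = h x - x := by
        apply hh x _ hz1.le
        intro c hc hcc
        exact hD c (Finset.mem_union_left _ hc) ⟨hcc.1, hcc.2.trans hz2⟩
      have h5 : h (x + (b - h x)) = b := by
        rw [sub_eq_iff_eq_add] at h4
        rw [h4]; abel
      have h6 : h.symm b = x + (b - h x) := by rw [Equiv.symm_apply_eq]; exact h5.symm
      apply hD (h.symm b) (Finset.mem_union_right _ (Finset.mem_image_of_mem _ hb))
      rw [h6]
      exact ⟨hz1, hz2⟩
  simp only [Equiv.Perm.coe_mul, Function.comp]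
  have h7 : g (h y) - y = (g (h y) - h y) + (h y - y) := by abel
  have h8 : g (h x) - x = (g (h x) - h x) + (h x - x) := by abel
  rw [h7, h8, h1, h2]

theorem Trans.inv {B : Finset R} {g : Equiv.Perm R} (hg : Trans B g) :
    ∃ D : Finset R, Trans D g⁻¹ := by
  classical
  refine ⟨B.image g, ?_⟩
  intro x z hxz hD
  rcases hxz.eq_or_lt with rfl | hlt
  · rfl
  set v := g⁻¹ z with hv
  have hgv : g v = z := by simp [hv]
  have key : ∀ b ∈ B, ¬ (v - (z - x) < b ∧ b ≤ v) := by
    intro b hb hcon
    -- maximal such b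
    let T := B.filter (fun b => v - (z - x) < b ∧ b ≤ v)
    have hT : T.Nonempty := ⟨b, Finset.mem_filter.2 ⟨hb, hcon⟩⟩
    obtain ⟨c, hc, hmax⟩ := T.exists_max_image id hT
    rw [Finset.mem_filter] at hc
    have h1 : g v - v = g c - c := by
      apply hg c v hc.2.2
      intro b' hb' hcon'
      have : b' ≤ c := hmax b' (Finset.mem_filter.2 ⟨hb', hc.2.1.trans hcon'.1, hcon'.2⟩)
      exact absurd hcon'.1 (not_lt.2 this)
    have h2 : g c = z - (v - c) := by
      rw [hgv, eq_comm, sub_eq_iff_eq_add] at h1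
      rw [h1]; abel
    apply hD (g c) (Finset.mem_image_of_mem _ hc.1)
    rw [h2]
    constructor
    · have h3 := hc.2.1
      rw [sub_lt_comm] at h3
      exact lt_sub_comm.1 h3
    · exact sub_le_self _ (sub_nonneg.2 hc.2.2)
  have h1 : g v - v = g (v - (z - x)) - (v - (z - x)) :=
    hg _ _ (sub_le_self _ (sub_nonneg.2 hlt.le)) key
  have h2 : g (v - (z - x)) = x := by
    rw [hgv, eq_comm, sub_eq_iff_eq_add] at h1
    rw [h1]; abel
  have h3 : g⁻¹ x = v - (z - x) := by
    rw [Equiv.Perm.inv_eq_iff_eq]; exact h2.symm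
  rw [h3]; abel

omit [IsOrderedAddMonoid R] in
/-- The set of displacements is finite. -/
theorem Trans.finite_range {B : Finset R} {g : Equiv.Perm R} (hg : Trans B g) :
    (Set.range fun x => g x - x).Finite := by
  classical
  have h : ∀ x y : R, x ≤ y → B.filter (fun b => b ≤ x) = B.filter (fun b => b ≤ y) →
      g y - y = g x - x := by
    intro x y hxy hB
    apply hg x y hxy
    intro b hb hcon
    have : b ∈ B.filter (fun b => b ≤ x) := by
      rw [hB]; exact Finset.mem_filter.2 ⟨hb, hcon.2⟩
    exact absurd (Finset.mem_filter.1 this).2 (not_le.2 hcon.1)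
  have h' : ∀ x y : R, B.filter (fun b => b ≤ x) = B.filter (fun b => b ≤ y) →
      g y - y = g x - x := by
    intro x y hB
    rcases le_total x y with hxy | hxy
    · exact h x y hxy hB
    · exact (h y x hxy hB.symm).symm
  let F : Finset R → R := fun C => if hC : ∃ x, B.filter (fun b => b ≤ x) = C then
    g hC.choose - hC.choose else 0
  apply (Set.Finite.image F (B.powerset.finite_toSet)).subset
  rintro _ ⟨x, rfl⟩
  refine ⟨B.filter (fun b => b ≤ x), ?_, ?_⟩
  · rw [Finset.mem_coe, Finset.mem_powerset]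
    exact Finset.filter_subset _ _
  · have hC : ∃ y, B.filter (fun b => b ≤ y) = B.filter (fun b => b ≤ x) := ⟨x, rfl⟩
    simp only [F, dif_pos hC]
    exact h' _ _ hC.choose_spec.symm

/-- The group of piecewise translations with displacements in `L`, trivial outside `J`. -/
def PTg (L : AddSubgroup R) (J : Set R) : Subgroup (Equiv.Perm R) where
  carrier := {g | (∃ B : Finset R, Trans B g) ∧ (∀ x, g x - x ∈ L) ∧ ∀ x ∉ J, g x = x}
  one_mem' := ⟨⟨∅, Trans.one⟩, fun x => by simp [L.zero_mem], fun x _ => rfl⟩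
  mul_mem' := by
    rintro g h ⟨⟨B, hB⟩, hgL, hgJ⟩ ⟨⟨C, hC⟩, hhL, hhJ⟩
    refine ⟨hB.mul hC, fun x => ?_, fun x hx => ?_⟩
    · have : (g * h) x - x = (g (h x) - h x) + (h x - x) := by
        simp only [Equiv.Perm.coe_mul, Function.comp]; abel
      rw [this]
      exact L.add_mem (hgL _) (hhL _)
    · simp only [Equiv.Perm.coe_mul, Function.comp, hhJ x hx, hgJ x hx]
  inv_mem' := by
    rintro g ⟨⟨B, hB⟩, hgL, hgJ⟩
    refine ⟨hB.inv, fun x => ?_, fun x hx => ?_⟩
    · have h1 := hgL (g⁻¹ x)
      have h2 : g (g⁻¹ x) = x := by simp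
      rw [h2] at h1
      have h3 := L.neg_mem h1
      rwa [neg_sub] at h3
    · rw [Equiv.Perm.inv_eq_iff_eq, hgJ x hx]

theorem mem_PTg {L : AddSubgroup R} {J : Set R} {g : Equiv.Perm R} :
    g ∈ PTg L J ↔ (∃ B : Finset R, Trans B g) ∧ (∀ x, g x - x ∈ L) ∧ ∀ x ∉ J, g x = x :=
  Iff.rfl

/-- Elements of `PTg` preserve `J`. -/
theorem PTg.mapsTo {L : AddSubgroup R} {J : Set R} {g : Equiv.Perm R} (hg : g ∈ PTg L J)
    {x : R} (hx : x ∈ J) : g x ∈ J := by
  by_contra h
  have h1 := hg.2.2 _ h
  have h2 := g.injective h1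
  rw [h2] at h
  exact h hx

end Pool.Agent.Lib.MP98125f
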