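import Mathlib
import Pool.Agent.Lib.MP_98125f_al.Amen2
import Pool.Agent.Lib.MP_98125f_al.PT

/-! # The real part of a piecewise translation of the hyperreals. -/

set_option autoImplicit false
set_option linter.deprecated false

namespace Pool.Agent.Lib.MP98125f

open Filter Topology Hyperreal

/-- `g` displaces by `t` just to the right of the monad of `x`. -/
def RD (g : Equiv.Perm ℝ*) (x : ℝ) (t : ℝ*) : Prop :=
  ∀ᶠ a in 𝓝[>] x, ∀ y : ℝ*, IsSt y a → g y - y = t

theorem RD.unique {g : Equiv.Perm ℝ*} {x : ℝ} {t t' : ℝ*} (h : RD g x t) (h' : RD g x t') :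
    t = t' := by
  obtain ⟨a, h1, h2⟩ := (h.and h').exists
  rw [← h1 a (isSt_refl_real a), ← h2 a (isSt_refl_real a)]

/-- Between two hyperreals with real standard parts everything is finite. -/
theorem isSt_of_between {x y z : ℝ*} {a c : ℝ} (hx : IsSt x a) (hz : IsSt z c) (hxy : x ≤ y)
    (hyz : y ≤ z) : IsSt y (st y) ∧ a ≤ st y ∧ st y ≤ c := by
  have hy : ¬ Infinite y := by
    rw [not_infinite_iff_exist_lt_gt]
    have h1 := hx.not_infinite
    have h2 := hz.not_infinite
    rw [not_infinite_iff_exist_lt_gt] at h1 h2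
    obtain ⟨r, _, hr, _⟩ := h1
    obtain ⟨_, s, _, hs⟩ := h2
    exact ⟨r, s, lt_of_lt_of_le hr hxy, lt_of_le_of_lt hyz hs⟩
  have hy' : IsSt y (st y) := isSt_st' hy
  exact ⟨hy', hx.le hy' hxy, hy'.le hz hyz⟩

theorem exists_RD {B : Finset ℝ*} {g : Equiv.Perm ℝ*} (hB : Trans B g) (x : ℝ) :
    ∃ t, RD g x t ∧ ∃ y, g y - y = t := by
  classical
  -- a real a0 > x without standard parts of breakpoints in (x, a0]
  have h1 : ∀ᶠ a in 𝓝[>] x, ∀ b ∈ B, ¬ (x < st b ∧ st b ≤ a) := by
    rw [Filter.eventually_all_finset]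
    intro b _
    rcases le_or_gt (st b) x with h | h
    · exact Eventually.of_forall fun a hcon => absurd hcon.1 (not_lt.2 h)
    · have : ∀ᶠ a in 𝓝[>] x, a < st b := mem_nhdsWithin_of_mem_nhds (Iio_mem_nhds h)
      filter_upwards [this] with a ha hcon
      exact absurd hcon.2 (not_le.2 ha)
  obtain ⟨a0, ha0, hxa0⟩ := (h1.and self_mem_nhdsWithin).exists
  replace hxa0 : x < a0 := hxa0
  refine ⟨g a0 - a0, ?_, a0, rfl⟩
  have h2 : ∀ᶠ a in 𝓝[>] x, a ∈ Set.Ioo x a0 := Ioo_mem_nhdsGT hxa0
  filter_upwards [h2] with a ha y hy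
  have hya : y ≤ a0 := (hy.lt (isSt_refl_real a0) ha.2).le
  refine (hB y a0 hya ?_).symm
  intro b hb hcon
  obtain ⟨_, h4, h5⟩ := isSt_of_between hy (isSt_refl_real a0) hcon.1.le hcon.2
  exact ha0 b hb ⟨lt_of_lt_of_le ha.1 h4, h5⟩

/-- The displacement to the right of the monad of `x`. -/
noncomputable def tau (g : Equiv.Perm ℝ*) (x : ℝ) : ℝ* := by
  classical
  exact if h : ∃ t, RD g x t then h.choose else 0

theorem RD.tau_eq {g : Equiv.Perm ℝ*} {x : ℝ} {t : ℝ*} (h : RD g x t) : tau g x = t := by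
  have h1 : ∃ t, RD g x t := ⟨t, h⟩
  unfold tau
  rw [dif_pos h1]
  exact h1.choose_spec.unique h

/-- The unit interval in the hyperreals. -/
def JJ : Set ℝ* := {x | 0 ≤ x ∧ x < 1}

variable {L : AddSubgroup ℝ*}

theorem RD_tau {g : Equiv.Perm ℝ*} (hg : g ∈ PTg L JJ) (x : ℝ) : RD g x (tau g x) := by
  obtain ⟨⟨B, hB⟩, -, -⟩ := hg
  obtain ⟨t, ht, -⟩ := exists_RD hB x
  rwa [ht.tau_eq]

theorem tau_mem {g : Equiv.Perm ℝ*} (hg : g ∈ PTg L JJ) (x : ℝ) : tau g x ∈ L := by
  obtain ⟨⟨B, hB⟩, hL, -⟩ := hg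
  obtain ⟨t, ht, y, hy⟩ := exists_RD hB x
  rw [ht.tau_eq, ← hy]
  exact hL y

theorem abs_disp_le {g : Equiv.Perm ℝ*} (hg : g ∈ PTg L JJ) (y : ℝ*) : |g y - y| ≤ 1 := by
  by_cases hy : y ∈ JJ
  · have h1 := PTg.mapsTo hg hy
    rw [abs_le]
    constructor <;> linarith [hy.1, hy.2, h1.1, h1.2]
  · rw [hg.2.2 y hy]; simp

theorem not_infinite_of_abs_le {y : ℝ*} (h : |y| ≤ 1) : ¬ Infinite y := by
  rw [not_infinite_iff_exist_lt_gt]
  rw [abs_le] at h
  refine ⟨-2, 2, ?_, ?_⟩
  · have : ((-2 : ℝ) : ℝ*) = -2 := by push_cast; rfl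
    rw [this]; linarith [h.1]
  · have : ((2 : ℝ) : ℝ*) = 2 := by push_cast; rfl
    rw [this]; linarith [h.2]

theorem tau_isSt {g : Equiv.Perm ℝ*} (hg : g ∈ PTg L JJ) (x : ℝ) :
    IsSt (tau g x) (st (tau g x)) := by
  obtain ⟨⟨B, hB⟩, -, -⟩ := id hg
  obtain ⟨t, ht, y, hy⟩ := exists_RD hB x
  rw [ht.tau_eq, ← hy]
  exact isSt_st' (not_infinite_of_abs_le (abs_disp_le hg y))

theorem tau_mul {g h : Equiv.Perm ℝ*} (hg : g ∈ PTg L JJ) (hh : h ∈ PTg L JJ) (x : ℝ) :
    tau (g * h) x = tau h x + tau g (x + st (tau h x)) := by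
  apply RD.tau_eq
  have h1 := RD_tau hh x
  have h2 := RD_tau hg (x + st (tau h x))
  have h3 : Tendsto (fun a => a + st (tau h x)) (𝓝[>] x) (𝓝[>] (x + st (tau h x))) := by
    apply tendsto_nhdsWithin_iff.2
    constructor
    · exact ((continuous_id.add continuous_const).tendsto x).mono_left nhdsWithin_le_nhds
    · filter_upwards [self_mem_nhdsWithin] with a ha
      have ha' : x < a := ha
      show x + st (tau h x) < a + st (tau h x)
      linarith
  filter_upwards [h1, h3.eventually h2] with a ha hb y hy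
  have h4 : h y = y + tau h x := by rw [← ha y hy]; ring
  have h5 : IsSt (h y) (a + st (tau h x)) := by
    rw [h4]; exact hy.add (tau_isSt hh x)
  have h6 := hb (h y) h5
  simp only [Equiv.Perm.coe_mul, Function.comp]
  rw [← h6, h4]; ring

theorem tau_one (x : ℝ) : tau 1 x = 0 := by
  apply RD.tau_eq
  exact Eventually.of_forall fun a y _ => by simp

/-- The real part as a homomorphism. -/
noncomputable def rhoHom (L : AddSubgroup ℝ*) : PTg L JJ →* Equiv.Perm ℝ :=
  MonoidHom.toHomPerm
    { toFun := fun g => (fun x => x + st (tau g.1 x) : ℝ → ℝ)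
      map_one' := by
        funext x
        have : tau ((1 : PTg L JJ) : Equiv.Perm ℝ*) x = 0 := by simp [tau_one]
        change x + st (tau ((1 : PTg L JJ) : Equiv.Perm ℝ*) x) = x
        rw [this]
        have h0 : st (0 : ℝ*) = 0 := by
          have := st_id_real 0
          simpa using this
        rw [h0, add_zero]
      map_mul' := by
        intro g h
        funext x
        change x + st (tau ((g * h : PTg L JJ) : Equiv.Perm ℝ*) x) =
          (x + st (tau h.1 x)) + st (tau g.1 (x + st (tau h.1 x)))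
        rw [Subgroup.coe_mul, tau_mul g.2 h.2]
        have h1 := (tau_isSt h.2 x).add (tau_isSt g.2 (x + st (tau h.1 x)))
        rw [h1.st_eq]
        ring }

theorem rhoHom_apply (g : PTg L JJ) (x : ℝ) : rhoHom L g x = x + st (tau g.1 x) := rfl

/-- Standard parts of elements of `L`. -/
def stL (L : AddSubgroup ℝ*) : AddSubgroup ℝ where
  carrier := {r | ∃ t ∈ L, IsSt t r}
  zero_mem' := ⟨0, L.zero_mem, by simpa using isSt_refl_real 0⟩
  add_mem' := by
    rintro a b ⟨s, hs, hsa⟩ ⟨t, ht, htb⟩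
    exact ⟨s + t, L.add_mem hs ht, hsa.add htb⟩
  neg_mem' := by
    rintro a ⟨s, hs, hsa⟩
    exact ⟨-s, L.neg_mem hs, hsa.neg⟩

theorem rhoHom_mem (g : PTg L JJ) : rhoHom L g ∈ PTg (stL L) (Set.Ico (0 : ℝ) 1) := by
  classical
  obtain ⟨⟨B, hB⟩, hL, hJ⟩ := g.2
  refine ⟨⟨B.image st, ?_⟩, ?_, ?_⟩
  · intro x y hxy hno
    rw [rhoHom_apply, rhoHom_apply, add_sub_cancel_left, add_sub_cancel_left]
    congr 1
    -- tau at x and y agree
    have hx := RD_tau g.2 x
    have hy := RD_tau g.2 y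
    have h3 : Tendsto (fun a => a + (y - x)) (𝓝[>] x) (𝓝[>] y) := by
      apply tendsto_nhdsWithin_iff.2
      constructor
      · have h : Tendsto (fun a : ℝ => a + (y - x)) (𝓝 x) (𝓝 (x + (y - x))) :=
          (continuous_id.add continuous_const).tendsto x
        rw [add_sub_cancel] at h
        exact h.mono_left nhdsWithin_le_nhds
      · filter_upwards [self_mem_nhdsWithin] with a ha
        have ha' : x < a := ha
        show y < a + (y - x)
        linarith
    have h4 : ∀ᶠ a in 𝓝[>] y, ∀ b ∈ B, ¬ (y < st b ∧ st b ≤ a) := by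
      rw [Filter.eventually_all_finset]
      intro b _
      rcases le_or_gt (st b) y with h | h
      · exact Eventually.of_forall fun a hcon => absurd hcon.1 (not_lt.2 h)
      · have : ∀ᶠ a in 𝓝[>] y, a < st b := mem_nhdsWithin_of_mem_nhds (Iio_mem_nhds h)
        filter_upwards [this] with a ha hcon
        exact absurd hcon.2 (not_le.2 ha)
    obtain ⟨a, ⟨⟨ha1, ha2⟩, ha3⟩, ha4⟩ := (((hx.and (h3.eventually hy)).and
      (h3.eventually h4)).and self_mem_nhdsWithin).exists
    replace ha4 : x < a := ha4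
    have h5 := ha1 a (isSt_refl_real a)
    have h6 := ha2 ((a + (y - x) : ℝ) : ℝ*) (isSt_refl_real _)
    rw [← h5, ← h6]
    refine hB _ _ ?_ ?_
    · rw [coe_le_coe]; linarith
    · intro b hb hcon
      obtain ⟨_, h8, h9⟩ := isSt_of_between (isSt_refl_real a) (isSt_refl_real (a + (y - x)))
        hcon.1.le hcon.2
      rcases le_or_gt (st b) y with h | h
      · exact hno (st b) (Finset.mem_image_of_mem _ hb) ⟨lt_of_lt_of_le ha4 h8, h⟩
      · exact ha3 b hb ⟨h, h9⟩
  · intro x
    rw [rhoHom_apply, add_sub_cancel_left]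
    exact ⟨_, tau_mem g.2 x, tau_isSt g.2 x⟩
  · intro x hx
    rw [rhoHom_apply]
    have h0 : tau g.1 x = 0 := by
      apply RD.tau_eq
      have h1 : ∀ᶠ a in 𝓝[>] x, a < 0 ∨ 1 < a := by
        rcases lt_or_ge x 0 with h | h
        · have : ∀ᶠ a in 𝓝[>] x, a < 0 := mem_nhdsWithin_of_mem_nhds (Iio_mem_nhds h)
          filter_upwards [this] with a ha using Or.inl ha
        · have h1 : 1 ≤ x := by
            by_contra hc
            exact hx ⟨h, not_le.1 hc⟩
          filter_upwards [self_mem_nhdsWithin] with a ha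
          exact Or.inr (lt_of_le_of_lt h1 ha)
      filter_upwards [h1] with a ha y hy
      have hyJ : y ∉ JJ := by
        rintro ⟨h1, h2⟩
        rcases ha with ha | ha
        · have := hy.lt (isSt_refl_real 0) ha
          rw [coe_zero] at this
          exact absurd h1 (not_le.2 this)
        · have := (isSt_refl_real 1).lt hy ha
          rw [coe_one] at this
          exact absurd h2 (not_lt.2 this.le)
      rw [hJ y hyJ, sub_self]
    rw [h0]
    have h0 : st (0 : ℝ*) = 0 := by
      have := st_id_real 0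
      simpa using this
    rw [h0, add_zero]

theorem st_tau_of_mem_ker {g : PTg L JJ} (hg : g ∈ (rhoHom L).ker) (x : ℝ) :
    st (tau g.1 x) = 0 := by
  have h := congrArg (fun p : Equiv.Perm ℝ => p x) (MonoidHom.mem_ker.1 hg)
  simp only [rhoHom_apply, Equiv.Perm.coe_one, id] at h
  linarith

/-- On the kernel of the real part the displacement is a homomorphism. -/
noncomputable def tauHom (L : AddSubgroup ℝ*) :
    (rhoHom L).ker →* Multiplicative (ℝ → ℝ*) where
  toFun g := Multiplicative.ofAdd (fun x => tau g.1.1 x)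
  map_one' := by
    rw [← ofAdd_zero]
    congr 1
    funext x
    simp [tau_one]
  map_mul' := by
    intro g h
    rw [← ofAdd_add]
    congr 1
    funext x
    simp only [Subgroup.coe_mul, Pi.add_apply]
    rw [tau_mul g.1.2 h.1.2, st_tau_of_mem_ker h.2, add_zero, add_comm]

/-- Reduction of amenability to the elements with zero displacement outside monads. -/
theorem amen_PTg_of (L : AddSubgroup ℝ*)
    (h1 : Amen (PTg (stL L) (Set.Ico (0 : ℝ) 1)))
    (h2 : ∀ S : Finset (Equiv.Perm ℝ*), (∀ s ∈ S, s ∈ PTg L JJ ∧ ∀ x : ℝ, tau s x = 0) →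
      Amen (Subgroup.closure (S : Set (Equiv.Perm ℝ*)))) :
    Amen (PTg L JJ) := by
  classical
  apply Amen.of_ker_range (rhoHom L)
  · apply Amen.of_ker_comm (tauHom L)
    · apply Amen.of_locally
      intro S
      let ψ : (tauHom L).ker →* Equiv.Perm ℝ* :=
        ((PTg L JJ).subtype.comp (rhoHom L).ker.subtype).comp (tauHom L).ker.subtype
      have hψ : Function.Injective ψ := by
        intro a b hab
        exact Subtype.ext (Subtype.ext (Subtype.ext hab))
      have h3 : Amen (Subgroup.closure ((S.image ψ : Finset _) : Set (Equiv.Perm ℝ*))) := by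
        apply h2
        intro s hs
        obtain ⟨k, _, rfl⟩ := Finset.mem_image.1 hs
        refine ⟨k.1.1.2, fun x => ?_⟩
        have h4 := MonoidHom.mem_ker.1 k.2
        exact congrFun (Multiplicative.ofAdd.injective h4) x
      rw [Finset.coe_image, ← MonoidHom.map_closure] at h3
      exact Amen.of_injective ((Subgroup.closure (S : Set (tauHom L).ker)).equivMapOfInjective
        ψ hψ).toMonoidHom (MulEquiv.injective _) h3
    · intro a b
      exact mul_comm a b
  · have hle : (rhoHom L).range ≤ PTg (stL L) (Set.Ico (0 : ℝ) 1) := by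
      rintro _ ⟨g, rfl⟩
      exact rhoHom_mem g
    exact Amen.of_le hle h1

end Pool.Agent.Lib.MP98125f
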