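import Mathlib
import Pool.Agent.Lib.MP_98125f_al.RealPart

/-! # Finitely generated groups supported in finitely many monads. -/

set_option autoImplicit false
set_option linter.deprecated false

namespace Pool.Agent.Lib.MP98125f

open Filter Topology Hyperreal

/-- Group version of the lemma on bounded orbits. -/
theorem finite_range_of_bounded_orbits {Γ X : Type*} [Group Γ] (S : Set Γ) (hS : S.Finite)
    (hcl : Subgroup.closure S = ⊤) (φ : Γ →* Equiv.Perm X) (M : ℕ)
    (h : ∀ x : X, (Set.range fun g => φ g x).Finite ∧ (Set.range fun g => φ g x).ncard ≤ M) :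
    Finite φ.range := by
  have horb : ∀ x : X, MulAction.orbit φ.range x = Set.range fun g => φ g x := by
    intro x
    ext y
    constructor
    · rintro ⟨⟨_, g, rfl⟩, rfl⟩
      exact ⟨g, rfl⟩
    · rintro ⟨g, rfl⟩
      exact ⟨⟨φ g, g, rfl⟩, rfl⟩
  apply finite_of_bounded_orbits (X := X) (φ.rangeRestrict '' S) (hS.image _) ?_ M
  · intro x
    rw [horb]
    exact h x
  · rw [← MonoidHom.map_closure, hcl, ← MonoidHom.range_eq_map]
    exact MonoidHom.range_eq_top.2 φ.rangeRestrict_surjective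

/-- `y` and `y'` are at distance `O(δ)`. -/
def NB (δ y y' : ℝ*) : Prop := ∃ n : ℕ, |y - y'| ≤ n * δ

theorem NB.refl (δ y : ℝ*) : NB δ y y := ⟨0, by simp⟩

theorem NB.symm {δ y y' : ℝ*} (h : NB δ y y') : NB δ y' y := by
  obtain ⟨n, hn⟩ := h
  exact ⟨n, by rwa [abs_sub_comm]⟩

theorem NB.trans {δ x y z : ℝ*} (h : NB δ x y) (h' : NB δ y z) : NB δ x z := by
  obtain ⟨n, hn⟩ := h
  obtain ⟨m, hm⟩ := h'
  refine ⟨n + m, ?_⟩
  calc |x - z| ≤ |x - y| + |y - z| := abs_sub_le _ _ _
    _ ≤ n * δ + m * δ := add_le_add hn hm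
    _ = ((n + m : ℕ) : ℝ*) * δ := by push_cast; ring

theorem natMul_lt_of_infinitesimal {δ : ℝ*} (hδ : Infinitesimal δ) (n : ℕ) (r : ℝ) (hr : 0 < r) :
    (n : ℝ*) * δ < r := by
  have h1 : Infinitesimal ((n : ℝ*) * δ) := by
    have h2 : IsSt ((n : ℝ) : ℝ*) (n : ℝ) := isSt_refl_real _
    have h3 := h2.mul hδ
    rw [mul_zero] at h3
    have h4 : (((n : ℝ) : ℝ*)) = (n : ℝ*) := map_natCast coeRingHom n
    rw [h4] at h3
    exact h3
  exact lt_of_pos_of_infinitesimal h1 r hr

theorem NB.isSt {δ y y' : ℝ*} (hδ : Infinitesimal δ) (h : NB δ y y') {p : ℝ} (hy : IsSt y p) :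
    IsSt y' p := by
  obtain ⟨n, hn⟩ := h
  have h1 : Infinitesimal (y' - y) := by
    rw [infinitesimal_def]
    intro r hr
    have h2 := natMul_lt_of_infinitesimal hδ n r hr
    rw [abs_sub_comm] at hn
    have h3 := abs_le.1 hn
    constructor <;> linarith [h3.1, h3.2]
  have h2 := hy.add h1
  rw [add_zero] at h2
  have h3 : y + (y' - y) = y' := by ring
  rwa [h3] at h2

section main

variable {H : Subgroup (Equiv.Perm ℝ*)} {S : Finset (Equiv.Perm ℝ*)} {P : Finset ℝ}
  {B : Finset ℝ*} {L' : AddSubgroup ℝ*} {δ : ℝ*}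

/-- The points of the monads of `P`. -/
def MM (P : Finset ℝ) (y : ℝ*) : Prop := ∃ p ∈ P, IsSt y p

/-- Good points. -/
def Good (P : Finset ℝ) (B : Finset ℝ*) (L' : AddSubgroup ℝ*) (δ y : ℝ*) : Prop :=
  MM P y ∧ ∀ b ∈ B, ∀ t ∈ L', ¬ NB δ y (b + t)

theorem MM.apply (ha : ∀ h ∈ H, ∀ y, ¬ MM P y → h y = y) {h : Equiv.Perm ℝ*} (hh : h ∈ H)
    {y : ℝ*} (hy : MM P y) : MM P (h y) := by
  by_contra hc
  have h1 := ha h hh _ hc
  rw [h.injective h1] at hc
  exact hc hy

theorem Good.near (hδ : Infinitesimal δ) {y y' : ℝ*} (hy : Good P B L' δ y) (h : NB δ y y') :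
    Good P B L' δ y' := by
  obtain ⟨⟨p, hp, hyp⟩, hB⟩ := hy
  exact ⟨⟨p, hp, h.isSt hδ hyp⟩, fun b hb t ht hc => hB b hb t ht (h.trans hc)⟩

theorem Good.apply (ha : ∀ h ∈ H, ∀ y, ¬ MM P y → h y = y) (hb : ∀ h ∈ H, ∀ y, h y - y ∈ L')
    {h : Equiv.Perm ℝ*} (hh : h ∈ H) {y : ℝ*} (hy : Good P B L' δ y) :
    Good P B L' δ (h y) := by
  refine ⟨MM.apply ha hh hy.1, fun b hbB t ht hc => ?_⟩
  have h1 := L'.sub_mem ht (hb h hh y)
  apply hy.2 b hbB _ h1
  obtain ⟨n, hn⟩ := hc
  refine ⟨n, ?_⟩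
  have : y - (b + (t - (h y - y))) = h y - (b + t) := by ring
  rwa [this]

theorem Good.disp (hδ : Infinitesimal δ) (hSH : H = Subgroup.closure (S : Set (Equiv.Perm ℝ*)))
    (ha : ∀ h ∈ H, ∀ y, ¬ MM P y → h y = y) (hb : ∀ h ∈ H, ∀ y, h y - y ∈ L')
    (hd : ∀ s ∈ S, Trans B s) {h : Equiv.Perm ℝ*} (hh : h ∈ H) :
    ∀ y, Good P B L' δ y → ∀ y', NB δ y y' → h y' - y' = h y - y := by
  have hh' := hh
  rw [hSH] at hh'
  induction hh' using Subgroup.closure_induction with
  | mem s hs =>
    -- a generator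
    have key : ∀ y, Good P B L' δ y → ∀ y', NB δ y y' → y ≤ y' → s y' - y' = s y - y := by
      intro y hy y' hn hle
      apply hd s hs y y' hle
      intro b hbB hcon
      apply hy.2 b hbB 0 L'.zero_mem
      obtain ⟨n, hn⟩ := hn
      refine ⟨n, le_trans ?_ hn⟩
      rw [add_zero, abs_sub_comm, abs_of_nonneg (by linarith [hcon.1]), abs_sub_comm,
        abs_of_nonneg (by linarith)]
      linarith [hcon.2]
    intro y hy y' hn
    rcases le_total y y' with h1 | h1
    · exact key y hy y' hn h1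
    · exact (key y' (hy.near hδ hn) y hn.symm h1).symm
  | one => intro y _ y' _; simp
  | mul g k hg hk ihg ihk =>
    intro y hy y' hn
    have hgH : g ∈ H := by rw [hSH]; exact hg
    have hkH : k ∈ H := by rw [hSH]; exact hk
    have h1 := ihk hkH y hy y' hn
    have h2 : NB δ (k y) (k y') := by
      obtain ⟨n, hn⟩ := hn
      refine ⟨n, ?_⟩
      have : k y - k y' = y - y' := by linear_combination -h1
      rwa [this]
    have h3 := ihg hgH (k y) (hy.apply ha hb hkH) (k y') h2
    simp only [Equiv.Perm.coe_mul, Function.comp]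
    linear_combination h3 + h1
  | inv g hg ih =>
    intro y hy y' hn
    have hgH : g ∈ H := by rw [hSH]; exact hg
    have hz : Good P B L' δ (g⁻¹ y) := hy.apply ha hb (H.inv_mem hgH)
    have h1 : NB δ (g⁻¹ y) (g⁻¹ y + (y' - y)) := by
      obtain ⟨n, hn⟩ := hn
      refine ⟨n, ?_⟩
      have : g⁻¹ y - (g⁻¹ y + (y' - y)) = y - y' := by ring
      rwa [this]
    have h2 := ih hgH _ hz _ h1
    have h3 : g (g⁻¹ y) = y := by simp
    rw [h3] at h2
    have h4 : g (g⁻¹ y + (y' - y)) = y' := by linear_combination h2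
    have h5 : g⁻¹ y' = g⁻¹ y + (y' - y) := by
      rw [Equiv.Perm.inv_eq_iff_eq]; exact h4.symm
    rw [h5]; ring

/-- Representatives of the bad classes. -/
theorem exists_reps (hδ : Infinitesimal δ)
    (hcyc : ∀ t ∈ L', Infinitesimal t → ∃ k : ℤ, t = k * δ) (hpos : 0 < δ) :
    ∃ Z : Finset ℝ*, ∀ y, MM P y → ¬ Good P B L' δ y → ∃ z ∈ Z, NB δ y z := by
  classical
  let f : ℝ* × ℝ → ℝ* := fun q => if h : ∃ t ∈ L', IsSt (q.1 + t) q.2 then q.1 + h.choose else 0
  refine ⟨(B ×ˢ P).image f, ?_⟩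
  intro y hy hng
  have h1 : ∃ b ∈ B, ∃ t ∈ L', NB δ y (b + t) := by
    by_contra hc
    push Not at hc
    exact hng ⟨hy, hc⟩
  obtain ⟨b, hb, t, ht, hn⟩ := h1
  obtain ⟨p, hp, hyp⟩ := hy
  have h2 : IsSt (b + t) p := hn.isSt hδ hyp
  have h3 : ∃ t ∈ L', IsSt (((b, p) : ℝ* × ℝ).1 + t) ((b, p) : ℝ* × ℝ).2 := ⟨t, ht, h2⟩
  refine ⟨f (b, p), Finset.mem_image_of_mem _ (Finset.mem_product.2 ⟨hb, hp⟩), ?_⟩
  have h4 : f (b, p) = b + h3.choose := by simp only [f]; rw [dif_pos h3]
  rw [h4]
  refine hn.trans ?_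
  obtain ⟨h5, h6⟩ := h3.choose_spec
  have h7 : Infinitesimal (t - h3.choose) := by
    have := h2.sub h6
    rw [sub_self] at this
    have h8 : b + t - (b + h3.choose) = t - h3.choose := by ring
    simp only [h8] at this
    exact this
  obtain ⟨k, hk⟩ := hcyc _ (L'.sub_mem ht h5) h7
  refine ⟨k.natAbs, ?_⟩
  have h8 : b + t - (b + h3.choose) = k * δ := by rw [← hk]; ring
  rw [h8, abs_mul, abs_of_pos hpos]
  apply le_of_eq
  congr 1
  rw [Nat.cast_natAbs]
  simp

/-- A gap to the right of the class of `z`. -/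
theorem exists_gap_right (hpos : 0 < δ) (hδ : Infinitesimal δ) (U : Finset ℝ*) (z : ℝ*) :
    ∃ w : ℝ*, (∀ n : ℕ, n * δ < w) ∧ ∀ u ∈ U, u ≤ z ∨ NB δ u z ∨ z + 2 * w ≤ u := by
  classical
  let V := U.filter (fun u => z < u ∧ ¬ NB δ u z)
  by_cases hV : V.Nonempty
  · obtain ⟨v, hv, hmin⟩ := V.exists_min_image id hV
    rw [Finset.mem_filter] at hv
    refine ⟨(v - z) / 2, ?_, ?_⟩
    · intro n
      by_contra hc
      apply hv.2.2
      refine ⟨2 * n, ?_⟩
      rw [abs_of_pos (by linarith [hv.2.1])]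
      push_cast
      linarith
    · intro u hu
      by_cases h1 : z < u
      · by_cases h2 : NB δ u z
        · exact Or.inr (Or.inl h2)
        · have h3 : v ≤ u := hmin u (Finset.mem_filter.2 ⟨hu, h1, h2⟩)
          right; right; linarith
      · exact Or.inl (not_lt.1 h1)
  · refine ⟨1, ?_, ?_⟩
    · intro n
      have := natMul_lt_of_infinitesimal hδ n 1 one_pos
      rwa [coe_one] at this
    · intro u hu
      by_cases h1 : z < u
      · by_cases h2 : NB δ u z
        · exact Or.inr (Or.inl h2)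
        · exact absurd ⟨u, Finset.mem_filter.2 ⟨hu, h1, h2⟩⟩ hV
      · exact Or.inl (not_lt.1 h1)

theorem exists_gap_left (hpos : 0 < δ) (hδ : Infinitesimal δ) (U : Finset ℝ*) (z : ℝ*) :
    ∃ w : ℝ*, (∀ n : ℕ, n * δ < w) ∧ ∀ u ∈ U, z ≤ u ∨ NB δ u z ∨ u ≤ z - 2 * w := by
  classical
  obtain ⟨w, hw, hU⟩ := exists_gap_right hpos hδ (U.image (fun u => -u)) (-z)
  refine ⟨w, hw, fun u hu => ?_⟩
  rcases hU (-u) (Finset.mem_image_of_mem _ hu) with h | h | h
  · left; linarith
  · right; left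
    obtain ⟨n, hn⟩ := h
    refine ⟨n, ?_⟩
    have : -u - -z = -(u - z) := by ring
    rwa [this, abs_neg] at hn
  · right; right; linarith

theorem exists_bound_near (D : Finset ℝ*) (z : ℝ*) (hpos : 0 < δ) :
    ∃ n : ℕ, ∀ u ∈ D, NB δ u z → |u - z| ≤ n * δ := by
  classical
  let f : ℝ* → ℕ := fun u => if h : NB δ u z then h.choose else 0
  refine ⟨D.sup f, fun u hu h => ?_⟩
  have h1 : |u - z| ≤ f u * δ := by
    simp only [f]; rw [dif_pos h]; exact h.choose_spec
  refine h1.trans ?_
  have h2 : f u ≤ D.sup f := Finset.le_sup hu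
  have h3 : (f u : ℝ*) ≤ (D.sup f : ℕ) := by exact_mod_cast h2
  exact mul_le_mul_of_nonneg_right h3 hpos.le

/-- An element fixing all good points is supported in a bounded neighbourhood of `Z`. -/
theorem exists_bound_support (hpos : 0 < δ) (hδ : Infinitesimal δ) {Z : Finset ℝ*}
    (hZ : ∀ y, MM P y → ¬ Good P B L' δ y → ∃ z ∈ Z, NB δ y z)
    {h : Equiv.Perm ℝ*} (hM : ∀ y, ¬ MM P y → h y = y) {D : Finset ℝ*} (hD : Trans D h)
    (hgood : ∀ y, Good P B L' δ y → h y = y) :
    ∃ n : ℕ, ∀ y, h y ≠ y → ∃ z ∈ Z, |y - z| ≤ n * δ := by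
  classical
  have hfar : ∀ y, (∀ z ∈ Z, ¬ NB δ y z) → h y = y := by
    intro y hy
    by_cases h1 : MM P y
    · by_cases h2 : Good P B L' δ y
      · exact hgood y h2
      · obtain ⟨z, hz, hn⟩ := hZ y h1 h2
        exact absurd hn (hy z hz)
    · exact hM y h1
  have key : ∀ z ∈ Z, ∃ n : ℕ, ∀ y, NB δ y z → n * δ < |y - z| → h y = y := by
    intro z hz
    obtain ⟨w, hw, hU⟩ := exists_gap_right hpos hδ (Z ∪ D) z
    obtain ⟨w', hw', hU'⟩ := exists_gap_left hpos hδ (Z ∪ D) z
    obtain ⟨n, hn⟩ := exists_bound_near D z hpos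
    refine ⟨n, fun y hyz hy => ?_⟩
    obtain ⟨k, hk⟩ := hyz
    rcases le_total z y with hzy | hzy
    · -- right
      have hy1 : y ≤ z + k * δ := by
        rw [abs_of_nonneg (by linarith)] at hk; linarith
      have hy2 : z + n * δ < y := by
        rw [abs_of_nonneg (by linarith)] at hy; linarith
      have hz' : h (z + w) = z + w := by
        apply hfar
        intro u hu ⟨m, hm⟩
        have hm' := abs_le.1 hm
        rcases hU u (Finset.mem_union_left _ hu) with h1 | ⟨j, hj⟩ | h1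
        · have := hw m; linarith [hm'.2]
        · have h2 := hw (m + j)
          push_cast at h2
          have hj' := abs_le.1 hj
          linarith [hm'.2, hj'.2]
        · have := hw m; linarith [hm'.1]
      have h3 : h (z + w) - (z + w) = h y - y := by
        apply hD y (z + w)
        · have := hw k; linarith
        · intro u hu hcon
          rcases hU u (Finset.mem_union_right _ hu) with h1 | h1 | h1
          · have h4 : (0 : ℝ*) ≤ n * δ := by positivity
            linarith [hcon.1]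
          · have h4 := abs_le.1 (hn u hu h1)
            linarith [hcon.1, h4.2]
          · have := hw 0
            simp only [Nat.cast_zero, zero_mul] at this
            linarith [hcon.2]
      rw [hz'] at h3
      linear_combination -h3
    · have hy1 : z - k * δ ≤ y := by
        rw [abs_of_nonpos (by linarith)] at hk; linarith
      have hy2 : y < z - n * δ := by
        rw [abs_of_nonpos (by linarith)] at hy; linarith
      have hz' : h (z - w') = z - w' := by
        apply hfar
        intro u hu ⟨m, hm⟩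
        have hm' := abs_le.1 hm
        rcases hU' u (Finset.mem_union_left _ hu) with h1 | ⟨j, hj⟩ | h1
        · have := hw' m; linarith [hm'.1]
        · have h2 := hw' (m + j)
          push_cast at h2
          have hj' := abs_le.1 hj
          linarith [hm'.1, hj'.1]
        · have := hw' m; linarith [hm'.2]
      have h3 : h y - y = h (z - w') - (z - w') := by
        apply hD (z - w') y
        · have := hw' k; linarith
        · intro u hu hcon
          rcases hU' u (Finset.mem_union_right _ hu) with h1 | h1 | h1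
          · have h4 : (0 : ℝ*) ≤ n * δ := by positivity
            linarith [hcon.2]
          · have h4 := abs_le.1 (hn u hu h1)
            linarith [hcon.2, h4.1]
          · have := hw' 0
            simp only [Nat.cast_zero, zero_mul] at this
            linarith [hcon.1]
      rw [hz'] at h3
      linear_combination h3
  choose! f hf using key
  refine ⟨Z.sup f, fun y hy => ?_⟩
  have h1 : ∃ z ∈ Z, NB δ y z := by
    by_contra hc
    push Not at hc
    exact hy (hfar y hc)
  obtain ⟨z, hz, hn⟩ := h1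
  refine ⟨z, hz, ?_⟩
  by_contra hc
  apply hy
  apply hf z hz y hn
  refine lt_of_le_of_lt ?_ (not_le.1 hc)
  have h2 : f z ≤ Z.sup f := Finset.le_sup hz
  have h3 : (f z : ℝ*) ≤ (Z.sup f : ℕ) := by exact_mod_cast h2
  exact mul_le_mul_of_nonneg_right h3 hpos.le

/-- Finitely many elements supported near `Z` with displacements in `L'` generate a finite
group. -/
theorem finite_of_support (hpos : 0 < δ) (hδ : Infinitesimal δ)
    (hcyc : ∀ t ∈ L', Infinitesimal t → ∃ k : ℤ, t = k * δ) (Z : Finset ℝ*)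
    (T : Finset (Equiv.Perm ℝ*)) (hT : ∀ h ∈ T, ∀ y, h y - y ∈ L')
    (hTn : ∀ h ∈ T, ∃ n : ℕ, ∀ y, h y ≠ y → ∃ z ∈ Z, |y - z| ≤ n * δ) :
    Finite (Subgroup.closure (T : Set (Equiv.Perm ℝ*))) := by
  classical
  choose! f hf using hTn
  let n := T.sup f
  have hn : ∀ h ∈ T, ∀ y, h y ≠ y → ∃ z ∈ Z, |y - z| ≤ n * δ := by
    intro h hh y hy
    obtain ⟨z, hz, h1⟩ := hf h hh y hy
    refine ⟨z, hz, h1.trans ?_⟩
    have h2 : f h ≤ n := Finset.le_sup hh
    have h3 : (f h : ℝ*) ≤ n := by exact_mod_cast h2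
    exact mul_le_mul_of_nonneg_right h3 hpos.le
  let W : ℝ* → Prop := fun y => ∃ z ∈ Z, |y - z| ≤ n * δ
  have hW : ∀ h ∈ Subgroup.closure (T : Set (Equiv.Perm ℝ*)),
      (∀ y, ¬ W y → h y = y) ∧ ∀ y, h y - y ∈ L' := by
    intro h hh
    induction hh using Subgroup.closure_induction with
    | mem s hs => exact ⟨fun y hy => by
        by_contra hc
        exact hy (hn s hs y hc), hT s hs⟩
    | one => exact ⟨fun y _ => rfl, fun y => by simp [L'.zero_mem]⟩
    | mul g k _ _ ihg ihk =>
      refine ⟨fun y hy => ?_, fun y => ?_⟩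
      · simp only [Equiv.Perm.coe_mul, Function.comp, ihk.1 y hy, ihg.1 y hy]
      · have : (g * k) y - y = (g (k y) - k y) + (k y - y) := by
          simp only [Equiv.Perm.coe_mul, Function.comp]; ring
        rw [this]
        exact L'.add_mem (ihg.2 _) (ihk.2 _)
    | inv g _ ih =>
      refine ⟨fun y hy => ?_, fun y => ?_⟩
      · rw [Equiv.Perm.inv_eq_iff_eq, ih.1 y hy]
      · have h1 := ih.2 (g⁻¹ y)
        have h2 : g (g⁻¹ y) = y := by simp
        rw [h2] at h1
        have h3 := L'.neg_mem h1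
        rwa [neg_sub] at h3
  -- fibres
  have hfib : ∀ (y z : ℝ*), ({y' : ℝ* | y' - y ∈ L' ∧ |y' - z| ≤ n * δ}).Finite ∧
      ({y' : ℝ* | y' - y ∈ L' ∧ |y' - z| ≤ n * δ}).ncard ≤ 4 * n + 1 := by
    intro y z
    set O := {y' : ℝ* | y' - y ∈ L' ∧ |y' - z| ≤ n * δ} with hO
    rcases O.eq_empty_or_nonempty with h0 | ⟨y0, hy0⟩
    · rw [h0]; simp
    · have hsub : O ⊆ ((Finset.Icc (-(2 * n : ℤ)) (2 * n)).image
          (fun k : ℤ => y0 + k * δ) : Finset ℝ*) := by
        intro y' hy'
        have h1 : y' - y0 ∈ L' := by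
          have := L'.sub_mem hy'.1 hy0.1
          have h2 : y' - y - (y0 - y) = y' - y0 := by ring
          rwa [h2] at this
        have h2 : |y' - y0| ≤ (2 * n : ℕ) * δ := by
          calc |y' - y0| ≤ |y' - z| + |z - y0| := abs_sub_le _ _ _
            _ ≤ n * δ + n * δ := by
              apply add_le_add hy'.2
              rw [abs_sub_comm]; exact hy0.2
            _ = _ := by push_cast; ring
        have h3 : Infinitesimal (y' - y0) := by
          rw [infinitesimal_def]
          intro r hr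
          have h4 := natMul_lt_of_infinitesimal hδ (2 * n) r hr
          have h5 := abs_le.1 h2
          constructor <;> linarith [h5.1, h5.2]
        obtain ⟨k, hk⟩ := hcyc _ h1 h3
        rw [Finset.mem_coe, Finset.mem_image]
        refine ⟨k, ?_, by rw [← hk]; ring⟩
        rw [hk, abs_mul, abs_of_pos hpos] at h2
        have h4 := le_of_mul_le_mul_right h2 hpos
        have h5 : |k| ≤ 2 * n := by
          have h6 : ((|k| : ℤ) : ℝ*) ≤ ((2 * n : ℕ) : ℤ) := by
            push_cast
            push_cast at h4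
            exact h4
          have h7 : |k| ≤ ((2 * n : ℕ) : ℤ) := by exact_mod_cast h6
          simpa using h7
        rw [Finset.mem_Icc]
        exact abs_le.1 h5
      refine ⟨(Finset.finite_toSet _).subset hsub, ?_⟩
      refine (Set.ncard_le_ncard hsub (Finset.finite_toSet _)).trans ?_
      rw [Set.ncard_coe_finset]
      refine Finset.card_image_le.trans ?_
      rw [Int.card_Icc]
      omega
  apply finite_of_bounded_orbits (X := ℝ*)
    (((↑) : Subgroup.closure (T : Set (Equiv.Perm ℝ*)) → Equiv.Perm ℝ*) ⁻¹' T)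
    (T.finite_toSet.preimage Subtype.val_injective.injOn)
    (Subgroup.closure_closure_coe_preimage) (Z.card * (4 * n + 1) + 1)
  intro y
  have horb : MulAction.orbit (Subgroup.closure (T : Set (Equiv.Perm ℝ*))) y ⊆
      (⋃ z ∈ Z, {y' : ℝ* | y' - y ∈ L' ∧ |y' - z| ≤ n * δ}) ∪ {y} := by
    rintro _ ⟨h, rfl⟩
    obtain ⟨h1, h2⟩ := hW h.1 h.2
    by_cases hy : W y
    · left
      have h3 : W (h.1 y) := by
        by_contra hc
        have h4 := h1 _ hc
        rw [h.1.injective h4] at hc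
        exact hc hy
      obtain ⟨z, hz, h5⟩ := h3
      rw [Set.mem_iUnion₂]
      exact ⟨z, hz, h2 y, h5⟩
    · right
      exact h1 y hy
  have hfin : ((⋃ z ∈ Z, {y' : ℝ* | y' - y ∈ L' ∧ |y' - z| ≤ n * δ}) ∪ {y}).Finite :=
    (Set.Finite.biUnion Z.finite_toSet fun z _ => (hfib y z).1).union (Set.finite_singleton _)
  refine ⟨hfin.subset horb, (Set.ncard_le_ncard horb hfin).trans ?_⟩
  refine (Set.ncard_union_le _ _).trans ?_
  rw [Set.ncard_singleton]
  apply Nat.add_le_add_right
  have hb : ∀ Z' : Finset ℝ*, (⋃ z ∈ Z', {y' : ℝ* | y' - y ∈ L' ∧ |y' - z| ≤ n * δ}).ncard ≤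
      Z'.card * (4 * n + 1) := by
    intro Z'
    induction Z' using Finset.induction_on with
    | empty => simp
    | insert a s has ih =>
      rw [Finset.set_biUnion_insert, Finset.card_insert_of_notMem has]
      refine (Set.ncard_union_le _ _).trans ?_
      have := (hfib y a).2
      linarith
  exact hb Z

end main

end Pool.Agent.Lib.MP98125f
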