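import Mathlib
import Pool.Agent.Lib.MP_98125f_al.Kern

/-! # Amenability of finitely generated groups supported in finitely many monads. -/

set_option autoImplicit false
set_option linter.deprecated false

namespace Pool.Agent.Lib.MP98125f

open Filter Topology Hyperreal

/-- The data attached to a finitely generated group supported in finitely many monads. -/
structure MData (H : Subgroup (Equiv.Perm ℝ*)) (S : Finset (Equiv.Perm ℝ*)) (P : Finset ℝ)
    (B : Finset ℝ*) (L' : AddSubgroup ℝ*) (δ : ℝ*) : Prop where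
  hpos : 0 < δ
  hδ : Infinitesimal δ
  hcyc : ∀ t ∈ L', Infinitesimal t → ∃ k : ℤ, t = k * δ
  hSH : H = Subgroup.closure (S : Set (Equiv.Perm ℝ*))
  ha : ∀ h ∈ H, ∀ y, ¬ MM P y → h y = y
  hb : ∀ h ∈ H, ∀ y, h y - y ∈ L'
  hc : ∀ h ∈ H, ∃ D : Finset ℝ*, Trans D h
  hd : ∀ s ∈ S, Trans B s

variable {H : Subgroup (Equiv.Perm ℝ*)} {S : Finset (Equiv.Perm ℝ*)} {P : Finset ℝ}
  {B : Finset ℝ*} {L' : AddSubgroup ℝ*} {δ : ℝ*}

/-- The equivalence relation on good points. -/
def goodSetoid (P : Finset ℝ) (B : Finset ℝ*) (L' : AddSubgroup ℝ*) (δ : ℝ*) :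
    Setoid {y : ℝ* // Good P B L' δ y} where
  r y y' := NB δ y.1 y'.1
  iseqv := ⟨fun y => NB.refl δ y.1, fun h => h.symm, fun h h' => h.trans h'⟩

/-- The action on classes of good points. -/
noncomputable def phi1 (D : MData H S P B L' δ) :
    H →* Equiv.Perm (Quotient (goodSetoid P B L' δ)) :=
  MonoidHom.toHomPerm
    { toFun := fun h => (Quotient.map (fun y => (⟨h.1 y.1, y.2.apply D.ha D.hb h.2⟩ :
          {y : ℝ* // Good P B L' δ y})) (by
          intro y y' hn
          have h1 : h.1 y'.1 - y'.1 = h.1 y.1 - y.1 :=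
            Good.disp D.hδ D.hSH D.ha D.hb D.hd h.2 y.1 y.2 y'.1 hn
          obtain ⟨n, hn⟩ : NB δ y.1 y'.1 := hn
          refine (⟨n, ?_⟩ : NB δ (h.1 y.1) (h.1 y'.1))
          have : h.1 y.1 - h.1 y'.1 = y.1 - y'.1 := by linear_combination -h1
          rwa [this]))
      map_one' := by
        funext q
        induction q using Quotient.inductionOn with
        | h y => rfl
      map_mul' := by
        intro g h
        funext q
        induction q using Quotient.inductionOn with
        | h y => rfl }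

theorem phi1_apply (D : MData H S P B L' δ) (h : H) (y : {y : ℝ* // Good P B L' δ y}) :
    phi1 D h (Quotient.mk _ y) =
      Quotient.mk _ (⟨h.1 y.1, y.2.apply D.ha D.hb h.2⟩ : {y : ℝ* // Good P B L' δ y}) := rfl

theorem finite_range_phi1 (D : MData H S P B L' δ) : Finite (phi1 D).range := by
  classical
  have hgen : Subgroup.closure (((↑) : H → Equiv.Perm ℝ*) ⁻¹' (S : Set (Equiv.Perm ℝ*))) = ⊤ := by
    have h1 := D.hSH
    subst h1
    exact Subgroup.closure_closure_coe_preimage
  apply finite_range_of_bounded_orbits (((↑) : H → Equiv.Perm ℝ*) ⁻¹' (S : Set (Equiv.Perm ℝ*)))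
    (S.finite_toSet.preimage Subtype.val_injective.injOn) hgen (phi1 D) P.card
  intro q
  induction q using Quotient.inductionOn with
  | h y =>
    -- the map to standard parts
    let F : Quotient (goodSetoid P B L' δ) → ℝ := Quotient.lift (fun z => st z.1) (by
      intro z z' hz
      obtain ⟨p, _, hp⟩ := z.2.1
      have h1 : IsSt z'.1 p := NB.isSt D.hδ hz hp
      show st z.1 = st z'.1
      rw [hp.st_eq, h1.st_eq])
    have hmaps : ∀ q ∈ Set.range (fun g => phi1 D g (Quotient.mk _ y)), F q ∈ (P : Set ℝ) := by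
      rintro _ ⟨g, rfl⟩
      obtain ⟨p, hpP, hp⟩ := (y.2.apply D.ha D.hb g.2).1
      show st (g.1 y.1) ∈ (P : Set ℝ)
      rw [hp.st_eq]; exact hpP
    have hinj : Set.InjOn F (Set.range (fun g => phi1 D g (Quotient.mk _ y))) := by
      rintro _ ⟨g, rfl⟩ _ ⟨k, rfl⟩ hgk
      have h1 : st (g.1 y.1) = st (k.1 y.1) := hgk
      obtain ⟨p, hpP, hp⟩ := (y.2.apply D.ha D.hb g.2).1
      obtain ⟨p', hpP', hp'⟩ := (y.2.apply D.ha D.hb k.2).1
      rw [hp.st_eq, hp'.st_eq] at h1
      subst h1
      apply Quotient.sound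
      show NB δ (g.1 y.1) (k.1 y.1)
      have h2 : g.1 y.1 - k.1 y.1 ∈ L' := by
        have := L'.sub_mem (D.hb g.1 g.2 y.1) (D.hb k.1 k.2 y.1)
        have h3 : g.1 y.1 - y.1 - (k.1 y.1 - y.1) = g.1 y.1 - k.1 y.1 := by ring
        rwa [h3] at this
      have h3 : Infinitesimal (g.1 y.1 - k.1 y.1) := by
        have := hp.sub hp'
        rw [sub_self] at this
        exact this
      obtain ⟨m, hm⟩ := D.hcyc _ h2 h3
      refine ⟨m.natAbs, ?_⟩
      rw [hm, abs_mul, abs_of_pos D.hpos]
      apply le_of_eq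
      congr 1
      rw [Nat.cast_natAbs]
      simp
    have himg : F '' (Set.range (fun g => phi1 D g (Quotient.mk _ y))) ⊆ (P : Set ℝ) := by
      rintro _ ⟨q, hq, rfl⟩
      exact hmaps q hq
    have hfin : (Set.range (fun g => phi1 D g (Quotient.mk _ y))).Finite :=
      Set.Finite.of_finite_image (P.finite_toSet.subset himg) hinj
    refine ⟨hfin, ?_⟩
    rw [← Set.ncard_image_of_injOn hinj]
    refine (Set.ncard_le_ncard himg P.finite_toSet).trans ?_
    rw [Set.ncard_coe_finset]

theorem nb_of_mem_ker (D : MData H S P B L' δ) {h : H} (hh : h ∈ (phi1 D).ker)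
    (y : {y : ℝ* // Good P B L' δ y}) : NB δ y.1 (h.1 y.1) := by
  have h1 := congrArg (fun p : Equiv.Perm (Quotient (goodSetoid P B L' δ)) =>
    p (Quotient.mk _ y)) (MonoidHom.mem_ker.1 hh)
  simp only [phi1_apply, Equiv.Perm.coe_one, id] at h1
  have h2 := Quotient.exact h1
  exact NB.symm h2

/-- Displacements of good points. -/
noncomputable def phi2 (D : MData H S P B L' δ) :
    (phi1 D).ker →* Multiplicative ({y : ℝ* // Good P B L' δ y} → ℝ*) where
  toFun h := Multiplicative.ofAdd (fun y => h.1.1 y.1 - y.1)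
  map_one' := by
    rw [← ofAdd_zero]
    congr 1
    funext y
    simp
  map_mul' := by
    intro g h
    rw [← ofAdd_add]
    congr 1
    funext y
    have h1 := nb_of_mem_ker D h.2 y
    have h2 : g.1.1 (h.1.1 y.1) - h.1.1 y.1 = g.1.1 y.1 - y.1 :=
      Good.disp D.hδ D.hSH D.ha D.hb D.hd g.1.2 y.1 y.2 _ h1
    simp only [Subgroup.coe_mul, Pi.add_apply, Equiv.Perm.coe_mul, Function.comp]
    linear_combination h2

theorem amen_of_mdata (D : MData H S P B L' δ) : Amen H := by
  classical
  apply Amen.of_ker_range (phi1 D)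
  · apply Amen.of_ker_comm (phi2 D) _ (fun a b => mul_comm a b)
    apply Amen.of_locally
    intro T
    let ψ : (phi2 D).ker →* Equiv.Perm ℝ* :=
      (H.subtype.comp (phi1 D).ker.subtype).comp (phi2 D).ker.subtype
    have hψ : Function.Injective ψ := by
      intro a b hab
      exact Subtype.ext (Subtype.ext (Subtype.ext hab))
    obtain ⟨Z, hZ⟩ := exists_reps (P := P) (B := B) D.hδ D.hcyc D.hpos
    have h3 : Finite (Subgroup.closure ((T.image ψ : Finset _) : Set (Equiv.Perm ℝ*))) := by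
      apply finite_of_support D.hpos D.hδ D.hcyc Z
      · intro h hh
        obtain ⟨k, _, rfl⟩ := Finset.mem_image.1 hh
        exact D.hb _ k.1.1.2
      · intro h hh
        obtain ⟨k, _, rfl⟩ := Finset.mem_image.1 hh
        obtain ⟨E, hE⟩ := D.hc _ k.1.1.2
        apply exists_bound_support D.hpos D.hδ hZ (D.ha _ k.1.1.2) hE
        intro y hy
        have h4 := MonoidHom.mem_ker.1 k.2
        have h5 := congrFun (Multiplicative.ofAdd.injective h4) ⟨y, hy⟩
        have h6 : k.1.1.1 y - y = 0 := h5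
        show k.1.1.1 y = y
        linear_combination h6
    rw [Finset.coe_image, ← MonoidHom.map_closure] at h3
    have h4 : Finite (Subgroup.closure (T : Set (phi2 D).ker)) :=
      Finite.of_injective ((Subgroup.closure (T : Set (phi2 D).ker)).equivMapOfInjective
        ψ hψ).toMonoidHom (MulEquiv.injective _)
    exact Amen.of_finite _
  · have := finite_range_phi1 D
    exact Amen.of_finite _

/-- Hypothesis on the group of displacements: finitely generated subgroups are contained in
groups whose infinitesimal part is cyclic. -/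
def HL (L : AddSubgroup ℝ*) : Prop :=
  ∀ T : Finset ℝ*, (∀ t ∈ T, t ∈ L) → ∃ (L' : AddSubgroup ℝ*) (δ : ℝ*), (∀ t ∈ T, t ∈ L') ∧
    0 < δ ∧ Infinitesimal δ ∧ ∀ t ∈ L', Infinitesimal t → ∃ k : ℤ, t = k * δ

theorem isSt_zero_zero : IsSt (0 : ℝ*) 0 := by simpa using isSt_refl_real 0

/-- An element with zero displacement outside monads is supported in the monads of its
breakpoints. -/
theorem support_of_tau_zero {L : AddSubgroup ℝ*} {s : Equiv.Perm ℝ*} (hs : s ∈ PTg L JJ)
    (ht : ∀ x : ℝ, tau s x = 0) {B : Finset ℝ*} (hB : Trans B s) {y : ℝ*}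
    (hy : ¬ ∃ b ∈ B, IsSt b (st y) ∧ IsSt y (st y)) : s y = y := by
  classical
  by_cases hyJ : y ∈ JJ
  · have hfin : ¬ Infinite y := by
      apply not_infinite_of_abs_le
      rw [abs_le]
      constructor <;> linarith [hyJ.1, hyJ.2]
    have hyst : IsSt y (st y) := isSt_st' hfin
    set x := st y with hx
    have h0 := RD_tau hs x
    rw [ht x] at h0
    have h1 : ∀ᶠ a in 𝓝[>] x, ∀ b ∈ B, ¬ (x < st b ∧ st b ≤ a) := by
      rw [Filter.eventually_all_finset]
      intro b _
      rcases le_or_gt (st b) x with h | h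
      · exact Eventually.of_forall fun a hcon => absurd hcon.1 (not_lt.2 h)
      · have : ∀ᶠ a in 𝓝[>] x, a < st b := mem_nhdsWithin_of_mem_nhds (Iio_mem_nhds h)
        filter_upwards [this] with a ha hcon
        exact absurd hcon.2 (not_le.2 ha)
    obtain ⟨a, ⟨ha1, ha2⟩, hxa⟩ := ((h0.and h1).and self_mem_nhdsWithin).exists
    replace hxa : x < a := hxa
    have h2 := ha1 a (isSt_refl_real a)
    have h3 : s a - a = s y - y := by
      apply hB y a (hyst.lt (isSt_refl_real a) hxa).le
      intro b hb hcon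
      obtain ⟨h4, h5, h6⟩ := isSt_of_between hyst (isSt_refl_real a) hcon.1.le hcon.2
      rcases h5.eq_or_lt with h7 | h7
      · apply hy
        refine ⟨b, hb, ?_, hyst⟩
        rw [← h7] at h4
        exact h4
      · exact ha2 b hb ⟨h7, h6⟩
    rw [h2] at h3
    linear_combination -h3
  · exact hs.2.2 y hyJ

theorem amen_closure {L : AddSubgroup ℝ*} (hL : HL L) (S : Finset (Equiv.Perm ℝ*))
    (hS : ∀ s ∈ S, s ∈ PTg L JJ ∧ ∀ x : ℝ, tau s x = 0) :
    Amen (Subgroup.closure (S : Set (Equiv.Perm ℝ*))) := by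
  classical
  -- breakpoints
  have h1 : ∀ s : Equiv.Perm ℝ*, ∃ B : Finset ℝ*, s ∈ S → Trans B s := by
    intro s
    by_cases hs : s ∈ S
    · obtain ⟨B, hB⟩ := (hS s hs).1.1
      exact ⟨B, fun _ => hB⟩
    · exact ⟨∅, fun h => absurd h hs⟩
  choose Bs hBs using h1
  let B : Finset ℝ* := S.biUnion Bs
  have hd : ∀ s ∈ S, Trans B s := fun s hs => (hBs s hs).mono (Finset.subset_biUnion_of_mem Bs hs)
  let P : Finset ℝ := B.image st
  -- displacements
  have h2 : ∀ s : Equiv.Perm ℝ*, ∃ T : Finset ℝ*, s ∈ S → ∀ y, s y - y ∈ T := by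
    intro s
    by_cases hs : s ∈ S
    · refine ⟨(hd s hs).finite_range.toFinset, fun _ y => ?_⟩
      rw [Set.Finite.mem_toFinset]
      exact ⟨y, rfl⟩
    · exact ⟨∅, fun h => absurd h hs⟩
  choose Ts hTs using h2
  let T : Finset ℝ* := (S.biUnion Ts).filter (fun t => t ∈ L)
  obtain ⟨L', δ, hTL', hpos, hδ, hcyc⟩ := hL T (fun t ht => (Finset.mem_filter.1 ht).2)
  have hgenL : ∀ s ∈ S, ∀ y, s y - y ∈ L' := by
    intro s hs y
    apply hTL'
    rw [Finset.mem_filter]
    exact ⟨Finset.mem_biUnion.2 ⟨s, hs, hTs s hs y⟩, (hS s hs).1.2.1 y⟩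
  have hgenP : ∀ s ∈ S, ∀ y, ¬ MM P y → s y = y := by
    intro s hs y hy
    apply support_of_tau_zero (hS s hs).1 (hS s hs).2 (hd s hs)
    rintro ⟨b, hb, hb1, hb2⟩
    apply hy
    exact ⟨st y, Finset.mem_image.2 ⟨b, hb, hb1.st_eq⟩, hb2⟩
  have hall : ∀ h ∈ Subgroup.closure (S : Set (Equiv.Perm ℝ*)),
      (∀ y, ¬ MM P y → h y = y) ∧ (∀ y, h y - y ∈ L') ∧ ∃ D : Finset ℝ*, Trans D h := by
    intro h hh
    induction hh using Subgroup.closure_induction with
    | mem s hs => exact ⟨hgenP s hs, hgenL s hs, B, hd s hs⟩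
    | one => exact ⟨fun y _ => rfl, fun y => by simp [L'.zero_mem], ∅, Trans.one⟩
    | mul g k _ _ ihg ihk =>
      obtain ⟨ihg1, ihg2, Dg, hDg⟩ := ihg
      obtain ⟨ihk1, ihk2, Dk, hDk⟩ := ihk
      refine ⟨fun y hy => ?_, fun y => ?_, hDg.mul hDk⟩
      · simp only [Equiv.Perm.coe_mul, Function.comp, ihk1 y hy, ihg1 y hy]
      · have : (g * k) y - y = (g (k y) - k y) + (k y - y) := by
          simp only [Equiv.Perm.coe_mul, Function.comp]; ring
        rw [this]
        exact L'.add_mem (ihg2 _) (ihk2 _)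
    | inv g _ ih =>
      obtain ⟨ih1, ih2, Dg, hDg⟩ := ih
      refine ⟨fun y hy => ?_, fun y => ?_, hDg.inv⟩
      · rw [Equiv.Perm.inv_eq_iff_eq, ih1 y hy]
      · have h1 := ih2 (g⁻¹ y)
        have h2 : g (g⁻¹ y) = y := by simp
        rw [h2] at h1
        have h3 := L'.neg_mem h1
        rwa [neg_sub] at h3
  exact amen_of_mdata (H := Subgroup.closure (S : Set (Equiv.Perm ℝ*))) (S := S) (P := P) (B := B)
    (L' := L') (δ := δ)
    { hpos := hpos
      hδ := hδ
      hcyc := hcyc
      hSH := rfl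
      ha := fun h hh => (hall h hh).1
      hb := fun h hh => (hall h hh).2.1
      hc := fun h hh => (hall h hh).2.2
      hd := hd }

/-- The main structural result: piecewise translations of the hyperreal unit interval with
displacements in `L` form an amenable group if their standard parts do. -/
theorem amen_PTg {L : AddSubgroup ℝ*} (hL : HL L)
    (h1 : Amen (PTg (stL L) (Set.Ico (0 : ℝ) 1))) : Amen (PTg L JJ) :=
  amen_PTg_of L h1 (fun S hS => amen_closure hL S hS)

end Pool.Agent.Lib.MP98125f
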