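import Mathlib
import Pool.Agent.Lib.MP_98125f_al.Kern2

/-! # Transfer between sequences of permutations of the line and the hyperreals. -/

set_option autoImplicit false
set_option linter.deprecated false

namespace Pool.Agent.Lib.MP98125f

open Filter Topology Hyperreal

/-- The group of germs of sequences of permutations of the real line. -/
abbrev GP : Type := Germ (hyperfilter ℕ : Filter ℕ) (Equiv.Perm ℝ)

/-- The action of a germ on the hyperreals. -/
noncomputable def act (G : GP) (x : ℝ*) : ℝ* :=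
  (Germ.map₂ (fun (p : Equiv.Perm ℝ) (r : ℝ) => p r) G
    (show Germ (hyperfilter ℕ : Filter ℕ) ℝ from x) : Germ (hyperfilter ℕ : Filter ℕ) ℝ)

theorem act_coe (g : ℕ → Equiv.Perm ℝ) (x : ℕ → ℝ) :
    act (g : GP) (ofSeq x) = ofSeq (fun n => g n (x n)) := rfl

theorem ofSeq_eq {f g : ℕ → ℝ} : ofSeq f = ofSeq g ↔ ∀ᶠ n in hyperfilter ℕ, f n = g n :=
  Germ.coe_eq

/-- The action as a homomorphism. -/
noncomputable def starHom : GP →* Equiv.Perm ℝ* :=
  MonoidHom.toHomPerm
    { toFun := fun G => (act G : ℝ* → ℝ*)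
      map_one' := by
        funext x
        obtain ⟨x, rfl⟩ := ofSeq_surjective x
        rfl
      map_mul' := by
        intro G H
        funext x
        obtain ⟨x, rfl⟩ := ofSeq_surjective x
        induction G using Germ.inductionOn with
        | h g =>
          induction H using Germ.inductionOn with
          | h h => rfl }

theorem starHom_coe (g : ℕ → Equiv.Perm ℝ) (x : ℕ → ℝ) :
    starHom (g : GP) (ofSeq x) = ofSeq (fun n => g n (x n)) := rfl

theorem starHom_injective : Function.Injective starHom := by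
  rw [injective_iff_map_eq_one]
  intro G
  induction G using Germ.inductionOn with
  | h g =>
    intro h
    by_contra hne
    have h1 : ¬ ∀ᶠ n in hyperfilter ℕ, g n = 1 := by
      intro h2
      apply hne
      exact Germ.coe_eq.2 h2
    rw [← Ultrafilter.eventually_not] at h1
    have h2 : ∀ n, ∃ x : ℝ, g n ≠ 1 → g n x ≠ x := by
      intro n
      by_cases hn : g n = 1
      · exact ⟨0, fun h => absurd hn h⟩
      · obtain ⟨x, hx⟩ : ∃ x, g n x ≠ x := by
          by_contra hc
          push Not at hc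
          exact hn (Equiv.ext hc)
        exact ⟨x, fun _ => hx⟩
    choose x hx using h2
    have h3 : starHom (g : GP) (ofSeq x) = ofSeq x := by rw [h]; rfl
    rw [starHom_coe, ofSeq_eq] at h3
    obtain ⟨n, hn1, hn2⟩ := (h1.and h3).exists
    exact hx n hn1 hn2

theorem exists_enum (B : Finset ℝ) (N : ℕ) (h : B.card ≤ N) :
    ∃ e : ℕ → ℝ, ∀ b ∈ B, ∃ i < N, e i = b := by
  refine ⟨fun i => B.toList.getD i 0, fun b hb => ?_⟩
  rw [← Finset.mem_toList, List.mem_iff_getElem] at hb
  obtain ⟨i, hi, hbi⟩ := hb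
  refine ⟨i, ?_, ?_⟩
  · rw [Finset.length_toList] at hi; omega
  · show B.toList.getD i 0 = b
    rw [List.getD_eq_getElem _ _ hi, hbi]

theorem star_mem_PTg {L : AddSubgroup ℝ*} (g : ℕ → Equiv.Perm ℝ) (N : ℕ) (F : Finset (ℕ → ℝ))
    (hF : ∀ f ∈ F, ofSeq f ∈ L) (hJ : ∀ n, ∀ x ∉ Set.Ico (0 : ℝ) 1, g n x = x)
    (hB : ∀ n, ∃ B : Finset ℝ, B.card ≤ N ∧ Trans B (g n))
    (hd : ∀ n x, ∃ f ∈ F, g n x - x = f n) : starHom (g : GP) ∈ PTg L JJ := by
  classical
  refine ⟨?_, ?_, ?_⟩
  · choose B hBN hBT using hB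
    choose e he using fun n => exists_enum (B n) N (hBN n)
    refine ⟨(Finset.range N).image (fun i => ofSeq (fun n => e n i)), ?_⟩
    intro x y hxy hno
    obtain ⟨x, rfl⟩ := ofSeq_surjective x
    obtain ⟨y, rfl⟩ := ofSeq_surjective y
    rw [ofSeq_le_ofSeq] at hxy
    have h1 : ∀ᶠ n in hyperfilter ℕ, ∀ i ∈ Finset.range N, ¬ (x n < e n i ∧ e n i ≤ y n) := by
      rw [Filter.eventually_all_finset]
      intro i hi
      have h2 := hno _ (Finset.mem_image_of_mem _ hi)
      rw [ofSeq_lt_ofSeq, ofSeq_le_ofSeq, ← Filter.eventually_and] at h2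
      exact Ultrafilter.eventually_not.2 h2
    rw [starHom_coe, starHom_coe]
    have h3 : ofSeq (fun n => g n (y n)) - ofSeq y = ofSeq (fun n => g n (y n) - y n) := rfl
    have h4 : ofSeq (fun n => g n (x n)) - ofSeq x = ofSeq (fun n => g n (x n) - x n) := rfl
    rw [h3, h4, ofSeq_eq]
    filter_upwards [hxy, h1] with n hn1 hn2
    apply hBT n _ _ hn1
    intro b hb hcon
    obtain ⟨i, hi, hib⟩ := he n b hb
    rw [← hib] at hcon
    exact hn2 i (Finset.mem_range.2 hi) hcon
  · intro x
    obtain ⟨x, rfl⟩ := ofSeq_surjective x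
    rw [starHom_coe]
    have h4 : ofSeq (fun n => g n (x n)) - ofSeq x = ofSeq (fun n => g n (x n) - x n) := rfl
    rw [h4]
    have h5 : ∀ᶠ n in hyperfilter ℕ, ∃ f ∈ (F : Set (ℕ → ℝ)), g n (x n) - x n = f n :=
      Eventually.of_forall fun n => hd n (x n)
    rw [Ultrafilter.eventually_exists_mem_iff F.finite_toSet] at h5
    obtain ⟨f, hf, h6⟩ := h5
    have h7 : ofSeq (fun n => g n (x n) - x n) = ofSeq f := ofSeq_eq.2 h6
    rw [h7]
    exact hF f hf
  · intro x hx
    obtain ⟨x, rfl⟩ := ofSeq_surjective x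
    rw [starHom_coe, ofSeq_eq]
    have h8 : ¬ ∀ᶠ n in hyperfilter ℕ, 0 ≤ x n ∧ x n < 1 := by
      intro h9
      apply hx
      constructor
      · have : ofSeq (fun _ => (0 : ℝ)) ≤ ofSeq x := ofSeq_le_ofSeq.2 (h9.mono fun n hn => hn.1)
        exact this
      · have : ofSeq x < ofSeq (fun _ => (1 : ℝ)) := ofSeq_lt_ofSeq.2 (h9.mono fun n hn => hn.2)
        exact this
    rw [← Ultrafilter.eventually_not] at h8
    filter_upwards [h8] with n hn
    exact hJ n _ hn

/-- Transfer of Foelner sets from the hyperreals to some index of the sequence. -/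
theorem transfer {L : AddSubgroup ℝ*} (hA : Amen (PTg L JJ)) (k : ℕ)
    (g : ℕ → Fin k → Equiv.Perm ℝ)
    (hg : ∀ j, starHom ((fun n => g n j : ℕ → Equiv.Perm ℝ) : GP) ∈ PTg L JJ) (m : ℕ) :
    ∃ n, ∃ F : Finset (Equiv.Perm ℝ), F.Nonempty ∧
      ∀ j, m * Set.ncard {x | x ∈ F ∧ g n j * x ∉ F} ≤ F.card := by
  classical
  let K : Subgroup GP := (PTg L JJ).comap starHom
  have hK : Amen K := by
    let φ : K →* PTg L JJ := (starHom.comp K.subtype).codRestrict (PTg L JJ) (fun x => x.2)
    apply Amen.of_injective φ _ hA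
    intro a b hab
    apply Subtype.ext
    apply starHom_injective
    exact congrArg Subtype.val hab
  rw [amen_iff] at hK
  let G : Fin k → K := fun j => ⟨((fun n => g n j : ℕ → Equiv.Perm ℝ) : GP), hg j⟩
  obtain ⟨F, hF, h1⟩ := hK (Finset.univ.image G) m
  let r : K → ℕ → Equiv.Perm ℝ := fun x => Quotient.out x.1
  have hr : ∀ x : K, ((r x : ℕ → Equiv.Perm ℝ) : GP) = x.1 := fun x => Quotient.out_eq x.1
  have h2 : ∀ᶠ n in hyperfilter ℕ, ∀ a ∈ F, ∀ b ∈ F, a ≠ b → r a n ≠ r b n := by
    rw [Filter.eventually_all_finset]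
    intro a _
    rw [Filter.eventually_all_finset]
    intro b _
    by_cases hab : a = b
    · exact Eventually.of_forall fun n h => absurd hab h
    · have h3 : ¬ ∀ᶠ n in hyperfilter ℕ, r a n = r b n := by
        intro h4
        apply hab
        apply Subtype.ext
        rw [← hr a, ← hr b]
        exact Germ.coe_eq.2 h4
      rw [← Ultrafilter.eventually_not] at h3
      filter_upwards [h3] with n hn _
      exact hn
  have h3 : ∀ᶠ n in hyperfilter ℕ, ∀ j ∈ (Finset.univ : Finset (Fin k)), ∀ a ∈ F,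
      g n j * r a n = r (G j * a) n := by
    rw [Filter.eventually_all_finset]
    intro j _
    rw [Filter.eventually_all_finset]
    intro a _
    have h4 : ((fun n => g n j * r a n : ℕ → Equiv.Perm ℝ) : GP) = (r (G j * a) : GP) := by
      rw [hr]
      have h5 : ((fun n => g n j * r a n : ℕ → Equiv.Perm ℝ) : GP) =
        ((fun n => g n j : ℕ → Equiv.Perm ℝ) : GP) * ((r a : ℕ → Equiv.Perm ℝ) : GP) := rfl
      rw [h5, hr]
      rfl
    exact Germ.coe_eq.1 h4
  obtain ⟨n, hn1, hn2⟩ := (h2.and h3).exists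
  have hinj : Set.InjOn (fun a => r a n) (F : Set K) := by
    intro a ha b hb hab
    by_contra hne
    exact hn1 a ha b hb hne hab
  refine ⟨n, F.image (fun a => r a n), hF.image _, fun j => ?_⟩
  rw [Finset.card_image_of_injOn hinj]
  refine le_trans (Nat.mul_le_mul_left _ ?_) (h1 (G j) (Finset.mem_image_of_mem _
    (Finset.mem_univ j)))
  rw [ncard_filter]
  have hsub : ((F.image (fun a => r a n)).filter
      (fun x => g n j * x ∉ F.image (fun a => r a n))) ⊆
      (F.filter (fun x => G j * x ∉ F)).image (fun a => r a n) := by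
    intro x hx
    rw [Finset.mem_filter] at hx
    obtain ⟨a, ha, rfl⟩ := Finset.mem_image.1 hx.1
    refine Finset.mem_image.2 ⟨a, Finset.mem_filter.2 ⟨ha, fun h => hx.2 ?_⟩, rfl⟩
    have h6 := hn2 j (Finset.mem_univ j) a ha
    simp only [h6]
    exact Finset.mem_image.2 ⟨_, h, rfl⟩
  exact (Finset.card_le_card hsub).trans Finset.card_image_le

end Pool.Agent.Lib.MP98125f
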