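import Mathlib
import Pool.Agent.Lib.MP_98125f_al.Transfer

/-! # Baire category: generic amenability. -/

set_option autoImplicit false
set_option linter.deprecated false

namespace Pool.Agent.Lib.MP98125f

open Filter Topology Hyperreal

theorem PTg_mono {R : Type*} [AddCommGroup R] [LinearOrder R] [IsOrderedAddMonoid R]
    {L₁ L₂ : AddSubgroup R} (h : L₁ ≤ L₂) (J : Set R) : PTg L₁ J ≤ PTg L₂ J :=
  fun _ hg => ⟨hg.1, fun x => h (hg.2.1 x), hg.2.2⟩

section general

variable {X E : Type*} [AddCommGroup E] (ev : E →+ (X → ℝ))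

/-- The parameters for which all admissible `k`-tuples with at most `N` breakpoints and
displacements in the finite set `F` of forms have Foelner sets. -/
def ASet (k N : ℕ) (F : Finset E) (m : ℕ) : Set X :=
  {x | ∀ g : Fin k → Equiv.Perm ℝ, (∀ j, (∀ y ∉ Set.Ico (0 : ℝ) 1, g j y = y) ∧
    (∃ B : Finset ℝ, B.card ≤ N ∧ Trans B (g j)) ∧ ∀ y, ∃ f ∈ F, g j y - y = ev f x) →
    ∃ F' : Finset (Equiv.Perm ℝ), F'.Nonempty ∧
      ∀ j, m * Set.ncard {z | z ∈ F' ∧ g j * z ∉ F'} ≤ F'.card}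

/-- The values of a form along a sequence, as a hyperreal. -/
noncomputable def evStar (x : ℕ → X) : E →+ ℝ* where
  toFun f := ofSeq (fun n => ev f (x n))
  map_zero' := by
    simp only [map_zero, Pi.zero_apply]
    rfl
  map_add' := by
    intro f g
    simp only [map_add, Pi.add_apply]
    rfl

theorem exists_mem_ASet (x : ℕ → X) (hL : HL (evStar ev x).range)
    (hA : Amen (PTg (stL (evStar ev x).range) (Set.Ico (0 : ℝ) 1))) (k N : ℕ) (F : Finset E)
    (m : ℕ) : ∃ n, x n ∈ ASet ev k N F m := by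
  classical
  by_contra hcon
  push Not at hcon
  have h1 : ∀ n, ∃ g : Fin k → Equiv.Perm ℝ, (∀ j, (∀ y ∉ Set.Ico (0 : ℝ) 1, g j y = y) ∧
    (∃ B : Finset ℝ, B.card ≤ N ∧ Trans B (g j)) ∧ ∀ y, ∃ f ∈ F, g j y - y = ev f (x n)) ∧
    ¬ ∃ F' : Finset (Equiv.Perm ℝ), F'.Nonempty ∧
      ∀ j, m * Set.ncard {z | z ∈ F' ∧ g j * z ∉ F'} ≤ F'.card := by
    intro n
    have h2 := hcon n
    simp only [ASet, Set.mem_ofPred_eq] at h2
    push Not at h2
    obtain ⟨g, hg, h3⟩ := h2
    refine ⟨g, hg, ?_⟩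
    rintro ⟨F', hF', h4⟩
    obtain ⟨j, hj⟩ := h3 F' hF'
    exact absurd (h4 j) (not_le.2 hj)
  choose g hg hbad using h1
  have hstar : ∀ j, starHom ((fun n => g n j : ℕ → Equiv.Perm ℝ) : GP) ∈
      PTg (evStar ev x).range JJ := by
    intro j
    apply star_mem_PTg (fun n => g n j) N (F.image (fun f => fun n => ev f (x n)))
    · intro f hf
      obtain ⟨f', _, rfl⟩ := Finset.mem_image.1 hf
      exact ⟨f', rfl⟩
    · exact fun n => (hg n j).1
    · exact fun n => (hg n j).2.1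
    · intro n y
      obtain ⟨f, hf, h2⟩ := (hg n j).2.2 y
      exact ⟨_, Finset.mem_image_of_mem _ hf, h2⟩
  obtain ⟨n, F', hF', h3⟩ := transfer (amen_PTg hL hA) k g hstar m
  exact hbad n ⟨F', hF', h3⟩

/-- If a parameter belongs to all the sets then the group of piecewise translations is
amenable. -/
theorem amen_of_forall_ASet {x : X} {V : AddSubgroup ℝ} (hV : ∀ v ∈ V, ∃ f : E, ev f x = v)
    (h : ∀ k N F m, x ∈ ASet ev k N F m) : Amen (PTg V (Set.Ico (0 : ℝ) 1)) := by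
  classical
  apply Amen.of_local_injective (PTg V (Set.Ico (0 : ℝ) 1)).subtype Subtype.val_injective
  intro S m
  have h1 : ∀ s : PTg V (Set.Ico (0 : ℝ) 1), ∃ B : Finset ℝ, Trans B s.1 := fun s => s.2.1
  choose B hB using h1
  have h2 : ∀ s : PTg V (Set.Ico (0 : ℝ) 1), ∃ F : Finset E, ∀ y, ∃ f ∈ F, s.1 y - y = ev f x := by
    intro s
    choose! c hc using hV
    refine ⟨(hB s).finite_range.toFinset.image c, fun y => ?_⟩
    refine ⟨c (s.1 y - y), Finset.mem_image_of_mem _ ?_, (hc _ (s.2.2.1 y)).symm⟩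
    rw [Set.Finite.mem_toFinset]
    exact ⟨y, rfl⟩
  choose F hF using h2
  let e := S.equivFin
  let g : Fin S.card → Equiv.Perm ℝ := fun j => ((e.symm j).1 : PTg V (Set.Ico (0 : ℝ) 1)).1
  obtain ⟨F', hF', h3⟩ := h S.card (S.sup (fun s => (B s).card)) (S.biUnion F) m g (by
    intro j
    refine ⟨(e.symm j).1.2.2.2, ⟨B (e.symm j).1, ?_, hB _⟩, fun y => ?_⟩
    · exact Finset.le_sup (f := fun s => (B s).card) (e.symm j).2
    · obtain ⟨f, hf, h4⟩ := hF (e.symm j).1 y
      exact ⟨f, Finset.mem_biUnion.2 ⟨_, (e.symm j).2, hf⟩, h4⟩)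
  refine ⟨F', hF', fun s hs => ?_⟩
  have h4 := h3 (e ⟨s, hs⟩)
  rw [ncard_filter] at h4
  have h5 : g (e ⟨s, hs⟩) = s.1 := by simp [g]
  rw [h5] at h4
  convert h4
  rfl

end general

/-- Amenability of the group of piecewise translations of the unit interval with displacements
in a rational subspace. -/
def GoodV (V : Submodule ℚ ℝ) : Prop := Amen (PTg V.toAddSubgroup (Set.Ico (0 : ℝ) 1))

/-- Forms in one variable. -/
noncomputable def ev1 (V : Submodule ℚ ℝ) : (V × ℚ) →+ (ℝ → ℝ) where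
  toFun f := fun x => (f.1 : ℝ) + (f.2 : ℝ) * x
  map_zero' := by
    funext x
    simp
  map_add' := by
    intro f g
    funext x
    simp only [Prod.fst_add, Prod.snd_add, Submodule.coe_add, Pi.add_apply, Rat.cast_add]
    ring

theorem ev1_apply (V : Submodule ℚ ℝ) (f : V × ℚ) (x : ℝ) :
    ev1 V f x = (f.1 : ℝ) + (f.2 : ℝ) * x := rfl

/-- Forms in several variables. -/
noncomputable def evd (V : Submodule ℚ ℝ) (d : ℕ) : (V × (Fin d → ℚ)) →+ ((Fin d → ℝ) → ℝ) where
  toFun f := fun x => (f.1 : ℝ) + ∑ i, (f.2 i : ℝ) * x i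
  map_zero' := by
    funext x
    simp
  map_add' := by
    intro f g
    funext x
    simp only [Prod.fst_add, Prod.snd_add, Submodule.coe_add, Pi.add_apply, Rat.cast_add, add_mul,
      Finset.sum_add_distrib]
    ring

theorem evd_apply (V : Submodule ℚ ℝ) (d : ℕ) (f : V × (Fin d → ℚ)) (x : Fin d → ℝ) :
    evd V d f x = (f.1 : ℝ) + ∑ i, (f.2 i : ℝ) * x i := rfl

theorem mem_range_evd (V : Submodule ℚ ℝ) (d : ℕ) (x : Fin d → ℝ) (v : ℝ) :
    v ∈ V ⊔ Submodule.span ℚ (Set.range x) ↔ ∃ f, evd V d f x = v := by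
  rw [Submodule.mem_sup]
  constructor
  · rintro ⟨a, ha, b, hb, rfl⟩
    rw [Submodule.mem_span_range_iff_exists_fun] at hb
    obtain ⟨c, rfl⟩ := hb
    refine ⟨(⟨a, ha⟩, c), ?_⟩
    rw [evd_apply]
    simp [Rat.smul_def]
  · rintro ⟨f, rfl⟩
    refine ⟨f.1, f.1.2, ∑ i, (f.2 i : ℝ) * x i, ?_, rfl⟩
    rw [Submodule.mem_span_range_iff_exists_fun]
    exact ⟨f.2, by simp [Rat.smul_def]⟩

theorem mem_range_ev1 (V : Submodule ℚ ℝ) (x : ℝ) (v : ℝ) :
    v ∈ V ⊔ Submodule.span ℚ {x} ↔ ∃ f, ev1 V f x = v := by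
  rw [Submodule.mem_sup]
  constructor
  · rintro ⟨a, ha, b, hb, rfl⟩
    rw [Submodule.mem_span_singleton] at hb
    obtain ⟨c, rfl⟩ := hb
    refine ⟨(⟨a, ha⟩, c), ?_⟩
    rw [ev1_apply, Rat.smul_def]
  · rintro ⟨f, rfl⟩
    refine ⟨f.1, f.1.2, (f.2 : ℝ) * x, ?_, rfl⟩
    rw [Submodule.mem_span_singleton]
    exact ⟨f.2, by rw [Rat.smul_def]⟩

/-- A common denominator. -/
theorem exists_common_den (T : Finset ℚ) : ∃ q : ℕ, 0 < q ∧ ∀ t ∈ T, ∃ k : ℤ, t = k / q := by
  classical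
  refine ⟨∏ t ∈ T, t.den, Finset.prod_pos fun t _ => t.pos, fun t ht => ?_⟩
  obtain ⟨c, hc⟩ := Finset.dvd_prod_of_mem (fun t : ℚ => t.den) ht
  refine ⟨t.num * c, ?_⟩
  rw [hc]
  have h1 : (t.den : ℚ) ≠ 0 := by exact_mod_cast t.pos.ne'
  have h2 : (c : ℚ) ≠ 0 := by
    intro h0
    have h3 : c = 0 := by exact_mod_cast h0
    rw [h3, mul_zero] at hc
    have := Finset.prod_pos (s := T) (f := fun t : ℚ => t.den) fun t _ => t.pos
    omega
  push_cast
  rw [mul_div_mul_right _ _ h2]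
  exact (Rat.num_div_den t).symm

/-- Near a point of `V` (but different from it) all parameters belong to `ASet`. -/
theorem ASet_mem_punctured {V : Submodule ℚ ℝ} (hV : GoodV V) {a₀ : ℝ} (ha₀ : a₀ ∈ V) (k N : ℕ)
    (F : Finset (V × ℚ)) (m : ℕ) : ASet (ev1 V) k N F m ∈ 𝓝[≠] a₀ := by
  classical
  by_contra hcon
  have h1 : ∃ᶠ x in 𝓝[≠] a₀, x ∉ ASet (ev1 V) k N F m := fun h => hcon (by
    filter_upwards [h] with x hx
    exact not_not.1 hx)
  obtain ⟨x, hx, hbad⟩ := exists_seq_forall_of_frequently h1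
  rw [tendsto_nhdsWithin_iff] at hx
  obtain ⟨hx1, hx2⟩ := hx
  set e₀ : ℝ* := ofSeq (fun n => x n - a₀) with he₀def
  have heinf : Infinitesimal e₀ := by
    apply infinitesimal_of_tendsto_zero
    have := hx1.sub_const a₀
    rwa [sub_self] at this
  have he0 : e₀ ≠ 0 := by
    intro h0
    have h2 : ofSeq (fun n => x n - a₀) = ofSeq (fun _ => (0 : ℝ)) := h0
    rw [ofSeq_eq] at h2
    have h3 : ∀ᶠ n in hyperfilter ℕ, x n ∈ ({a₀}ᶜ : Set ℝ) := by
      have : (hyperfilter ℕ : Filter ℕ) ≤ atTop := by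
        rw [← Nat.cofinite_eq_atTop]; exact hyperfilter_le_cofinite
      exact this hx2
    obtain ⟨n, hn1, hn2⟩ := (h2.and h3).exists
    exact hn2 (sub_eq_zero.1 hn1)
  -- values of forms
  have hval : ∀ f : V × ℚ, evStar (ev1 V) x f =
      (((f.1 : ℝ) + (f.2 : ℝ) * a₀ : ℝ) : ℝ*) + ((f.2 : ℝ) : ℝ*) * e₀ := by
    intro f
    have : ofSeq (fun n => ev1 V f (x n)) = ofSeq (fun n => ((f.1 : ℝ) + (f.2 : ℝ) * a₀) +
        (f.2 : ℝ) * (x n - a₀)) := by
      congr 1
      funext n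
      rw [ev1_apply]; ring
    exact this
  have hcoef : ∀ f : V × ℚ, (f.1 : ℝ) + (f.2 : ℝ) * a₀ ∈ V := by
    intro f
    apply V.add_mem f.1.2
    have := V.smul_mem f.2 ha₀
    rwa [Rat.smul_def] at this
  obtain ⟨n, hn⟩ := exists_mem_ASet (ev1 V) x (by
    -- HL
    intro T hT
    have h2 : ∀ t : ℝ*, ∃ f : V × ℚ, t ∈ T → evStar (ev1 V) x f = t := by
      intro t
      by_cases ht : t ∈ T
      · obtain ⟨f, hf⟩ := hT t ht
        exact ⟨f, fun _ => hf⟩
      · exact ⟨0, fun h => absurd h ht⟩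
    choose f hf using h2
    obtain ⟨q, hq, hqT⟩ := exists_common_den (T.image (fun t => (f t).2))
    have hq' : (0 : ℝ) < q := by exact_mod_cast hq
    let δ : ℝ* := |e₀| * (((1 / q : ℝ)) : ℝ*)
    have hq'' : (0 : ℝ*) < (((1 / q : ℝ)) : ℝ*) := by
      rw [← coe_zero, coe_lt_coe]; positivity
    let φ : (V × ℤ) →+ ℝ* :=
      { toFun := fun c => ((c.1 : ℝ) : ℝ*) + (c.2 : ℝ*) * (e₀ * (((1 / q : ℝ)) : ℝ*))
        map_zero' := by simp
        map_add' := by
          intro a b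
          simp only [Prod.fst_add, Prod.snd_add, Submodule.coe_add, coe_add, Int.cast_add]
          ring }
    refine ⟨φ.range, δ, ?_, ?_, ?_, ?_⟩
    · intro t ht
      obtain ⟨k, hk⟩ := hqT _ (Finset.mem_image_of_mem _ ht)
      refine ⟨(⟨_, hcoef (f t)⟩, k), ?_⟩
      have h3 := hf t ht
      rw [hval] at h3
      refine Eq.trans ?_ h3
      show (((((f t).1 : ℝ) + ((f t).2 : ℝ) * a₀ : ℝ)) : ℝ*) +
        (k : ℝ*) * (e₀ * (((1 / q : ℝ)) : ℝ*)) = _
      congr 1
      rw [hk]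
      have h4 : (((((k / q : ℚ)) : ℝ)) : ℝ*) = (k : ℝ*) * (((1 / q : ℝ)) : ℝ*) := by
        have h5 : (((k / q : ℚ)) : ℝ) = (k : ℝ) * (1 / q) := by push_cast; ring
        rw [h5, coe_mul]
        congr 1
      rw [h4]; ring
    · exact mul_pos (abs_pos.2 he0) hq''
    · have h3 : IsSt |e₀| |(0 : ℝ)| := heinf.map (continuous_abs.continuousAt)
      have h4 := h3.mul (isSt_refl_real (1 / q))
      rw [abs_zero, zero_mul] at h4
      exact h4
    · rintro _ ⟨c, rfl⟩ hinf
      have h3 : φ c = ((c.1 : ℝ) : ℝ*) + (c.2 : ℝ*) * (e₀ * (((1 / q : ℝ)) : ℝ*)) := rfl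
      have h4 : Infinitesimal ((c.2 : ℝ*) * (e₀ * (((1 / q : ℝ)) : ℝ*))) := by
        have h5 : (c.2 : ℝ*) = (((c.2 : ℝ)) : ℝ*) := (map_intCast coeRingHom c.2).symm
        rw [h5]
        have h6 := (isSt_refl_real (c.2 : ℝ)).mul ((show IsSt e₀ 0 from heinf).mul (isSt_refl_real (1 / q)))
        rw [zero_mul, mul_zero] at h6
        exact h6
      have h5 : Infinitesimal ((c.1 : ℝ) : ℝ*) := by
        have h6 := hinf.add h4.neg
        rw [h3] at h6
        have h7 : ((c.1 : ℝ) : ℝ*) + (c.2 : ℝ*) * (e₀ * (((1 / q : ℝ)) : ℝ*)) +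
          -((c.2 : ℝ*) * (e₀ * (((1 / q : ℝ)) : ℝ*))) = ((c.1 : ℝ) : ℝ*) := by ring
        rwa [h7] at h6
      have h6 : (c.1 : ℝ) = 0 := h5.eq_zero
      rw [h3, h6, coe_zero, zero_add]
      rcases le_or_gt 0 e₀ with h7 | h7
      · refine ⟨c.2, ?_⟩
        simp only [δ]
        rw [abs_of_nonneg h7]
      · refine ⟨-c.2, ?_⟩
        simp only [δ]
        rw [abs_of_neg h7]
        push_cast
        ring) (by
    apply Amen.of_le _ hV
    apply PTg_mono
    rintro r ⟨_, ⟨f, rfl⟩, hr⟩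
    rw [hval] at hr
    have h2 : IsSt ((((f.1 : ℝ) + (f.2 : ℝ) * a₀ : ℝ) : ℝ*) + ((f.2 : ℝ) : ℝ*) * e₀)
        ((f.1 : ℝ) + (f.2 : ℝ) * a₀) := by
      have h3 := (isSt_refl_real ((f.1 : ℝ) + (f.2 : ℝ) * a₀)).add
        ((isSt_refl_real (f.2 : ℝ)).mul heinf)
      rwa [mul_zero, add_zero] at h3
    rw [hr.unique h2]
    exact hcoef f) k N F m
  exact hbad n hn

/-- Linear independence over `V`. -/
def IndepV (V : Submodule ℚ ℝ) (d : ℕ) (x : Fin d → ℝ) : Prop := ∀ f, evd V d f x = 0 → f = 0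

/-- Near a good independent point all parameters belong to `ASet`. -/
theorem ASet_mem_nhds {V : Submodule ℚ ℝ} {d : ℕ} {x₀ : Fin d → ℝ} (hind : IndepV V d x₀)
    (hV : GoodV (V ⊔ Submodule.span ℚ (Set.range x₀))) (k N : ℕ)
    (F : Finset (V × (Fin d → ℚ))) (m : ℕ) : ASet (evd V d) k N F m ∈ 𝓝 x₀ := by
  classical
  by_contra hcon
  have h1 : ∃ᶠ x in 𝓝 x₀, x ∉ ASet (evd V d) k N F m := fun h => hcon (by
    filter_upwards [h] with x hx
    exact not_not.1 hx)
  obtain ⟨x, hx, hbad⟩ := exists_seq_forall_of_frequently h1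
  have hst : ∀ f, IsSt (evStar (evd V d) x f) (evd V d f x₀) := by
    intro f
    apply isSt_of_tendsto
    have hc : Continuous (fun y : Fin d → ℝ => evd V d f y) := by
      simp only [evd_apply]
      fun_prop
    exact (hc.tendsto x₀).comp hx
  obtain ⟨n, hn⟩ := exists_mem_ASet (evd V d) x (by
    intro T hT
    refine ⟨(evStar (evd V d) x).range, ε, hT, epsilon_pos, infinitesimal_epsilon, ?_⟩
    rintro _ ⟨f, rfl⟩ hinf
    refine ⟨0, ?_⟩
    have h2 : evd V d f x₀ = 0 := (hst f).unique hinf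
    rw [hind f h2, map_zero]
    simp) (by
    apply Amen.of_le _ hV
    apply PTg_mono
    rintro r ⟨_, ⟨f, rfl⟩, hr⟩
    rw [hr.unique (hst f)]
    exact (mem_range_evd V d x₀ _).2 ⟨f, rfl⟩) k N F m
  exact hbad n hn

/-- One variable: generic amenability. -/
theorem residual_one {V : Submodule ℚ ℝ} [Countable V] (h1V : (1 : ℝ) ∈ V) (hV : GoodV V) :
    ∀ᶠ x in residual ℝ, GoodV (V ⊔ Submodule.span ℚ {x}) := by
  have hdense : Dense (V : Set ℝ) := by
    apply (Rat.denseRange_cast (𝕜 := ℝ)).mono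
    rintro _ ⟨q, rfl⟩
    have := V.smul_mem q h1V
    rwa [Rat.smul_def, mul_one] at this
  have h2 : ∀ k N F m, ∀ᶠ x in residual ℝ, x ∈ ASet (ev1 V) k N F m := by
    intro k N F m
    have h3 : Dense (interior (ASet (ev1 V) k N F m)) := by
      rw [dense_iff_inter_open]
      intro U hU hUne
      obtain ⟨a, haV, haU⟩ := hdense.exists_mem_open hU hUne
      have h4 := ASet_mem_punctured hV haV k N F m
      rw [mem_nhdsWithin] at h4
      obtain ⟨u, hu, hau, huA⟩ := h4
      have h6 : ∀ᶠ x in 𝓝[≠] a, x ∈ U ∩ u :=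
        mem_nhdsWithin_of_mem_nhds ((hU.inter hu).mem_nhds ⟨haU, hau⟩)
      obtain ⟨x, hx1, hx2⟩ := (h6.and self_mem_nhdsWithin).exists
      refine ⟨x, hx1.1, ?_⟩
      rw [mem_interior]
      exact ⟨u ∩ {a}ᶜ, huA, hu.inter isOpen_compl_singleton, hx1.2, hx2⟩
    exact mem_of_superset (residual_of_dense_open isOpen_interior h3) interior_subset
  have h3 : ∀ᶠ x in residual ℝ, ∀ k N F m, x ∈ ASet (ev1 V) k N F m := by
    rw [eventually_countable_forall]; intro k
    rw [eventually_countable_forall]; intro N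
    rw [eventually_countable_forall]; intro F
    rw [eventually_countable_forall]; intro m
    exact h2 k N F m
  filter_upwards [h3] with x hx
  exact amen_of_forall_ASet (ev1 V) (fun v hv => (mem_range_ev1 V x v).1 hv) hx

/-- Good independent points are dense. -/
theorem dense_good (d : ℕ) : ∀ V : Submodule ℚ ℝ, Countable V → (1 : ℝ) ∈ V → GoodV V →
    Dense {x : Fin d → ℝ | IndepV V d x ∧ GoodV (V ⊔ Submodule.span ℚ (Set.range x))} := by
  induction d with
  | zero =>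
    intro V _ _ hV
    have : {x : Fin 0 → ℝ | IndepV V 0 x ∧ GoodV (V ⊔ Submodule.span ℚ (Set.range x))} =
        Set.univ := by
      ext x
      simp only [Set.mem_ofPred_eq, Set.mem_univ, iff_true]
      constructor
      · intro f hf
        rw [evd_apply] at hf
        simp only [Finset.univ_eq_empty, Finset.sum_empty, add_zero] at hf
        refine Prod.ext (Subtype.ext hf) (Subsingleton.elim _ _)
      · rw [Set.range_eq_empty, Submodule.span_empty, sup_bot_eq]
        exact hV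
    rw [this]
    exact dense_univ
  | succ d ih =>
    intro V hVc h1V hV
    rw [dense_iff_inter_open]
    intro U hU ⟨x, hxU⟩
    obtain ⟨r, hr, hball⟩ := Metric.isOpen_iff.1 hU x hxU
    have hres := residual_one h1V hV
    have hnot : ∀ᶠ y in residual ℝ, y ∉ (V : Set ℝ) := by
      have hc : (V : Set ℝ).Countable := Set.countable_coe_iff.1 hVc
      have h1 : ∀ a ∈ (V : Set ℝ), ∀ᶠ y in residual ℝ, y ≠ a := by
        intro a _
        exact residual_of_dense_open isOpen_compl_singleton (dense_compl_singleton a)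
      have h2 := (eventually_countable_ball hc).2 h1
      filter_upwards [h2] with y hy hyV
      exact hy y hyV rfl
    have hd1 : Dense {y : ℝ | GoodV (V ⊔ Submodule.span ℚ {y}) ∧ y ∉ (V : Set ℝ)} :=
      dense_of_mem_residual (hres.and hnot)
    obtain ⟨y0, ⟨hy0g, hy0V⟩, hy0b⟩ := hd1.exists_mem_open Metric.isOpen_ball
      (⟨x 0, Metric.mem_ball_self hr⟩ : (Metric.ball (x 0) r).Nonempty)
    let V1 : Submodule ℚ ℝ := V ⊔ Submodule.span ℚ {y0}
    have hV1c : Countable V1 := by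
      have h1 : (V1 : Set ℝ) ⊆ Set.range (fun f : V × ℚ => ev1 V f y0) := by
        intro v hv
        obtain ⟨f, hf⟩ := (mem_range_ev1 V y0 v).1 hv
        exact ⟨f, hf⟩
      exact Set.countable_coe_iff.2 ((Set.countable_range _).mono h1)
    have h1V1 : (1 : ℝ) ∈ V1 := Submodule.mem_sup_left h1V
    obtain ⟨y', ⟨hy'i, hy'g⟩, hy'b⟩ := (ih V1 hV1c h1V1 hy0g).exists_mem_open
      (Metric.isOpen_ball : IsOpen (Metric.ball (Fin.tail x : Fin d → ℝ) r))
      ⟨Fin.tail x, Metric.mem_ball_self hr⟩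
    refine ⟨Fin.cons y0 y', ?_, ?_, ?_⟩
    · apply hball
      rw [Metric.mem_ball, dist_pi_lt_iff hr]
      intro i
      refine Fin.cases ?_ (fun j => ?_) i
      · simpa using hy0b
      · rw [Metric.mem_ball, dist_pi_lt_iff hr] at hy'b
        simpa [Fin.tail] using hy'b j
    · intro f hf
      rw [evd_apply, Fin.sum_univ_succ] at hf
      simp only [Fin.cons_zero, Fin.cons_succ] at hf
      have h1 : ((f.1 : ℝ) + (f.2 0 : ℝ) * y0) ∈ V1 :=
        (mem_range_ev1 V y0 _).2 ⟨(f.1, f.2 0), rfl⟩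
      have h2 := hy'i (⟨_, h1⟩, fun j => f.2 j.succ) (by
        rw [evd_apply]
        linarith)
      have h3 : (f.1 : ℝ) + (f.2 0 : ℝ) * y0 = 0 := congrArg (fun p => ((p.1 : V1) : ℝ)) h2
      have h4 : ∀ j, f.2 (Fin.succ j) = 0 := fun j => congrFun (congrArg Prod.snd h2) j
      have h5 : f.2 0 = 0 := by
        by_contra h6
        apply hy0V
        have h7 : y0 = (-(f.2 0)⁻¹ : ℚ) • (f.1 : ℝ) := by
          rw [Rat.smul_def]
          have h8 : (f.2 0 : ℝ) ≠ 0 := by exact_mod_cast h6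
          push_cast
          field_simp
          linarith
        rw [h7]
        exact V.smul_mem _ f.1.2
      have h6 : (f.1 : ℝ) = 0 := by
        rw [h5] at h3
        simpa using h3
      refine Prod.ext (Subtype.ext h6) (funext fun i => ?_)
      refine Fin.cases h5 h4 i
    · rw [Fin.range_cons, Submodule.span_insert, ← sup_assoc]
      exact hy'g

/-- Generic amenability in all dimensions. -/
theorem residual_good (d : ℕ) {V : Submodule ℚ ℝ} [hVc : Countable V] (h1V : (1 : ℝ) ∈ V)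
    (hV : GoodV V) :
    ∀ᶠ x in residual (Fin d → ℝ), GoodV (V ⊔ Submodule.span ℚ (Set.range x)) := by
  have h2 : ∀ k N F m, ∀ᶠ x in residual (Fin d → ℝ), x ∈ ASet (evd V d) k N F m := by
    intro k N F m
    have h3 : Dense (interior (ASet (evd V d) k N F m)) := by
      apply (dense_good d V hVc h1V hV).mono
      rintro x ⟨hx1, hx2⟩
      rw [mem_interior_iff_mem_nhds]
      exact ASet_mem_nhds hx1 hx2 k N F m
    exact mem_of_superset (residual_of_dense_open isOpen_interior h3) interior_subset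
  have h3 : ∀ᶠ x in residual (Fin d → ℝ), ∀ k N F m, x ∈ ASet (evd V d) k N F m := by
    rw [eventually_countable_forall]; intro k
    rw [eventually_countable_forall]; intro N
    rw [eventually_countable_forall]; intro F
    rw [eventually_countable_forall]; intro m
    exact h2 k N F m
  filter_upwards [h3] with x hx
  exact amen_of_forall_ASet (evd V d) (fun v hv => (mem_range_evd V d x v).1 hv) hx

end Pool.Agent.Lib.MP98125f
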