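import Mathlib

/-! # Mycielski's theorem for comeagre subsets of `ℝ ^ d`, with a continuous map of the Cantor set. -/

set_option autoImplicit false

namespace Pool.Agent.Lib.MP98125f.Perf

open Filter Topology Set

abbrev K := ℕ → Bool

/-- Restriction to the first `n` coordinates. -/
def res (n : ℕ) (x : K) : Fin n → Bool := fun i => x i

theorem continuous_res (n : ℕ) : Continuous (res n) :=
  continuous_pi fun i => continuous_apply (i : ℕ)

theorem res_mono {n N : ℕ} (h : n ≤ N) {x y : K} (hxy : res N x = res N y) : res n x = res n y := by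
  funext i
  exact congrFun hxy ⟨i, lt_of_lt_of_le i.2 h⟩

theorem exists_level {f : K → ℝ} (hf : Continuous f) {ε : ℝ} (hε : 0 < ε) :
    ∃ N, ∀ x y, res N x = res N y → |f x - f y| < ε := by
  have h1 : ∀ x : K, ∃ n, ∀ y, res n y = res n x → |f y - f x| < ε / 2 := by
    intro x
    have h2 : {y | |f y - f x| < ε / 2} ∈ 𝓝 x := by
      have h3 := hf.continuousAt.tendsto (x := x) (Metric.ball_mem_nhds (f x) (half_pos hε))
      filter_upwards [h3] with y hy
      rw [mem_preimage, Metric.mem_ball, Real.dist_eq] at hy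
      exact hy
    have h4 := (PiNat.isTopologicalBasis_cylinders (fun _ : ℕ => Bool)).mem_nhds_iff.1 h2
    obtain ⟨s, ⟨z, n, rfl⟩, hx, hs⟩ := h4
    refine ⟨n, fun y hy => hs ?_⟩
    rw [PiNat.mem_cylinder_iff] at hx ⊢
    intro i hi
    rw [← hx i hi]
    exact congrFun hy ⟨i, hi⟩
  choose n hn using h1
  have h5 : ∀ x : K, {y | res (n x) y = res (n x) x} ∈ 𝓝 x := by
    intro x
    have h6 : IsOpen (res (n x) ⁻¹' {res (n x) x}) :=
      (isOpen_discrete {res (n x) x}).preimage (continuous_res (n x))
    exact h6.mem_nhds rfl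
  obtain ⟨t, ht⟩ := CompactSpace.elim_nhds_subcover _ h5
  refine ⟨t.sup n, fun x y hxy => ?_⟩
  have h6 : x ∈ (⋃ z ∈ t, {y | res (n z) y = res (n z) z}) := by
    rw [ht]; trivial
  simp only [mem_iUnion, mem_ofPred_eq, exists_prop] at h6
  obtain ⟨z, hz, hxz⟩ := h6
  have hyz : res (n z) y = res (n z) z := by
    rw [← hxz]
    exact (res_mono (Finset.le_sup hz) hxy).symm
  have h7 := hn z x hxz
  have h8 := hn z y hyz
  rw [abs_lt] at h7 h8 ⊢
  constructor <;> linarith

/-- The tuples whose entries are distinct at level `n`. -/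
def Z (d n : ℕ) : Set (Fin d → K) := {x | Function.Injective fun i => res n (x i)}

theorem isClosed_Z (d n : ℕ) : IsClosed (Z d n) := by
  have h1 : Continuous fun x : Fin d → K => fun i => res n (x i) :=
    continuous_pi fun i => (continuous_res n).comp (continuous_apply i)
  exact (isClosed_discrete {g : Fin d → Fin n → Bool | Function.Injective g}).preimage h1

/-- The set of the good functions. -/
def O (d n : ℕ) (U : Set (Fin d → ℝ)) : Set C(K, ℝ) :=
  {f | ∀ x ∈ Z d n, (fun i => f (x i)) ∈ U}

theorem isOpen_O (d n : ℕ) {U : Set (Fin d → ℝ)} (hU : IsOpen U) : IsOpen (O d n U) := by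
  let Φ : C(K, ℝ) → C(Fin d → K, Fin d → ℝ) := fun f =>
    ⟨fun x i => f (x i), continuous_pi fun i => f.continuous.comp (continuous_apply i)⟩
  have hΦ : Continuous Φ := by
    apply ContinuousMap.continuous_of_continuous_uncurry
    apply continuous_pi
    intro i
    have : Continuous fun p : C(K, ℝ) × (Fin d → K) => p.1 (p.2 i) :=
      Continuous.eval continuous_fst ((continuous_apply i).comp continuous_snd)
    exact this
  have h2 := (ContinuousMap.isOpen_setOfPred_mapsTo (isClosed_Z d n).isCompact hU).preimage hΦ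
  exact h2

theorem dense_fin (d : ℕ) {T : Type} [Finite T] {U : Set (Fin d → ℝ)} (hU : IsOpen U)
    (hd : Dense U) : Dense {v : T → ℝ | ∀ t : Fin d → T, Function.Injective t → v ∘ t ∈ U} := by
  have := Fintype.ofFinite T
  have h1 : ∀ t : Fin d → T, ∀ᶠ v in residual (T → ℝ), Function.Injective t → v ∘ t ∈ U := by
    intro t
    by_cases ht : Function.Injective t
    · have h2 : IsOpenMap (LinearMap.funLeft ℝ ℝ t) :=
        LinearMap.isOpenMap_of_finiteDimensional _ (LinearMap.funLeft_surjective_of_injective ℝ ℝ t ht)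
      have h3 : Continuous (LinearMap.funLeft ℝ ℝ t) :=
        LinearMap.continuous_of_finiteDimensional _
      have h4 : {v : T → ℝ | v ∘ t ∈ U} ∈ residual (T → ℝ) :=
        residual_of_dense_open (hU.preimage h3) (hd.preimage h2)
      filter_upwards [h4] with v hv _
      exact hv
    · exact Eventually.of_forall fun v h => absurd h ht
  have h5 : ∀ᶠ v in residual (T → ℝ), ∀ t : Fin d → T, Function.Injective t → v ∘ t ∈ U :=
    eventually_countable_forall.2 h1
  exact dense_of_mem_residual h5

theorem dense_O (d n : ℕ) {U : Set (Fin d → ℝ)} (hU : IsOpen U) (hd : Dense U) :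
    Dense (O d n U) := by
  rw [Metric.dense_iff]
  intro f ε hε
  obtain ⟨N0, hN0⟩ := exists_level f.continuous (ε := ε / 3) (by positivity)
  let N := max n N0
  have hN : ∀ x y, res N x = res N y → |f x - f y| < ε / 3 := fun x y h =>
    hN0 x y (res_mono (le_max_right n N0) h)
  let rep : (Fin N → Bool) → K := fun t i => if h : i < N then t ⟨i, h⟩ else false
  have hrep : ∀ t, res N (rep t) = t := by
    intro t
    funext i
    show (if h : (i : ℕ) < N then t ⟨i, h⟩ else false) = t i
    rw [dif_pos i.2]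
  obtain ⟨v, hv1, hv2⟩ := (Metric.dense_iff.1 (dense_fin d (T := Fin N → Bool) hU hd))
    (fun t => f (rep t)) (ε / 3) (by positivity)
  let g : C(K, ℝ) := ⟨fun x => v (res N x), (continuous_of_discreteTopology).comp (continuous_res N)⟩
  refine ⟨g, ?_, ?_⟩
  · rw [Metric.mem_ball, ContinuousMap.dist_lt_iff hε]
    intro x
    have h1 : |f (rep (res N x)) - f x| < ε / 3 := hN _ _ (hrep _)
    have h2 : dist (v (res N x)) (f (rep (res N x))) < ε / 3 := by
      have h3 := hv1
      rw [Metric.mem_ball, dist_pi_lt_iff (by positivity)] at h3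
      exact h3 _
    calc dist (g x) (f x) ≤ dist (v (res N x)) (f (rep (res N x))) +
          dist (f (rep (res N x))) (f x) := dist_triangle _ _ _
      _ < ε / 3 + ε / 3 := add_lt_add h2 (by rw [Real.dist_eq]; exact h1)
      _ < ε := by linarith
  · intro x hx
    apply hv2 (fun i => res N (x i))
    intro i j hij
    exact hx (res_mono (le_max_left n N0) hij)

/-- Mycielski's theorem, with a continuous function on the Cantor set. -/
theorem mycielski (R : ∀ d : ℕ, Set (Fin d → ℝ)) (hR : ∀ d, R d ∈ residual (Fin d → ℝ)) :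
    ∃ f : K → ℝ, Continuous f ∧ ∀ (d : ℕ) (x : Fin d → K), Function.Injective x →
      (fun i => f (x i)) ∈ R d := by
  have h0 : ∀ d, ∃ S : Set (Set (Fin d → ℝ)), (∀ t ∈ S, IsOpen t) ∧ (∀ t ∈ S, Dense t) ∧
      S.Countable ∧ ⋂₀ S ⊆ R d := fun d => mem_residual_iff.1 (hR d)
  choose S hS1 hS2 hS3 hS4 using h0
  have h1 : ∀ᶠ f in residual C(K, ℝ), ∀ d n, ∀ U ∈ S d, f ∈ O d n U := by
    rw [eventually_countable_forall]; intro d
    rw [eventually_countable_forall]; intro n
    rw [eventually_countable_ball (hS3 d)]; intro U hU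
    exact residual_of_dense_open (isOpen_O d n (hS1 d U hU)) (dense_O d n (hS1 d U hU) (hS2 d U hU))
  obtain ⟨f, hf⟩ := (dense_of_mem_residual h1).nonempty
  refine ⟨f, f.continuous, fun d x hx => ?_⟩
  have h2 : ∃ n, x ∈ Z d n := by
    have h3 : ∀ p : Fin d × Fin d, ∃ m : ℕ, p.1 ≠ p.2 → x p.1 m ≠ x p.2 m := by
      intro p
      by_cases hp : p.1 = p.2
      · exact ⟨0, fun h => absurd hp h⟩
      · have h4 : x p.1 ≠ x p.2 := fun h => hp (hx h)
        obtain ⟨m, hm⟩ := Function.ne_iff.1 h4
        exact ⟨m, fun _ => hm⟩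
    choose m hm using h3
    refine ⟨Finset.univ.sup m + 1, ?_⟩
    intro i j hij
    by_contra hne
    have h5 : m (i, j) < Finset.univ.sup m + 1 :=
      Nat.lt_succ_of_le (Finset.le_sup (f := m) (Finset.mem_univ (i, j)))
    exact hm (i, j) hne (congrFun hij ⟨m (i, j), h5⟩)
  obtain ⟨n, hn⟩ := h2
  apply hS4 d
  rw [mem_sInter]
  intro U hU
  exact hf d n U hU x hn

end Pool.Agent.Lib.MP98125f.Perf
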