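import Pool.Agent.Lib.MP_98125f_al.Iet
import Pool.Agent.Lib.MP_98125f_al.Perfect

/-! # A `ℚ`-subspace of `ℝ` of dimension continuum with an amenable group of interval exchanges. -/

set_option autoImplicit false

namespace Pool.Agent.Lib.MP98125f.Perf

open Filter Topology Set

theorem residual_linInd (d : ℕ) :
    {x : Fin d → ℝ | LinearIndependent ℚ x} ∈ residual (Fin d → ℝ) := by
  have h1 : ∀ c : Fin d → ℚ, ∀ᶠ x in residual (Fin d → ℝ), c ≠ 0 → ∑ i, c i • x i ≠ 0 := by
    intro c
    by_cases hc : c = 0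
    · exact Eventually.of_forall fun x h => absurd hc h
    · obtain ⟨j, hj⟩ := Function.ne_iff.1 hc
      let L : (Fin d → ℝ) →ₗ[ℝ] ℝ :=
        ∑ i, ((c i : ℚ) : ℝ) • (LinearMap.proj i : (Fin d → ℝ) →ₗ[ℝ] ℝ)
      have hL : ∀ x, L x = ∑ i, c i • x i := by
        intro x
        simp only [L, LinearMap.sum_apply, LinearMap.smul_apply, LinearMap.proj_apply, smul_eq_mul,
          Rat.smul_def]
      have hsurj : Function.Surjective L := by
        intro y
        refine ⟨Pi.single j (y / ((c j : ℚ) : ℝ)), ?_⟩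
        rw [hL, Finset.sum_eq_single j]
        · rw [Pi.single_eq_same, Rat.smul_def, mul_div_cancel₀]
          exact_mod_cast hj
        · intro i _ hij
          rw [Pi.single_eq_of_ne hij, smul_zero]
        · intro h; exact absurd (Finset.mem_univ j) h
      have h2 : IsOpenMap L := LinearMap.isOpenMap_of_finiteDimensional _ hsurj
      have h3 : Continuous L := LinearMap.continuous_of_finiteDimensional _
      have h4 : Dense (({0}ᶜ : Set ℝ)) := dense_compl_singleton 0
      have h5 : L ⁻¹' ({0}ᶜ) ∈ residual (Fin d → ℝ) :=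
        residual_of_dense_open ((isOpen_compl_singleton).preimage h3) (h4.preimage h2)
      filter_upwards [h5] with x hx _
      rw [← hL]
      exact hx
  have h2 : ∀ᶠ x in residual (Fin d → ℝ), ∀ c : Fin d → ℚ, c ≠ 0 → ∑ i, c i • x i ≠ 0 :=
    eventually_countable_forall.2 h1
  filter_upwards [h2] with x hx
  rw [Fintype.linearIndependent_iff]
  intro c hc i
  by_contra hne
  exact hx c (fun h => hne (congrFun h i)) hc

theorem exists_cantor :
    ∃ f : K → ℝ, Continuous f ∧ (∀ (d : ℕ) (x : Fin d → K), Function.Injective x →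
      LinearIndependent ℚ (fun i => f (x i))) ∧
      ∀ (d : ℕ) (x : Fin d → K), Function.Injective x →
        GoodV (Submodule.span ℚ {(1 : ℝ)} ⊔ Submodule.span ℚ (Set.range fun i => f (x i))) := by
  have hc : Countable (Submodule.span ℚ {(1 : ℝ)}) := by
    have h1 : ((Submodule.span ℚ {(1 : ℝ)} : Submodule ℚ ℝ) : Set ℝ) ⊆
        Set.range (fun q : ℚ => (q : ℝ)) := by
      intro v hv
      obtain ⟨q, hq⟩ := Submodule.mem_span_singleton.1 hv
      exact ⟨q, by rw [← hq, Rat.smul_def, mul_one]⟩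
    exact Set.countable_coe_iff.2 ((Set.countable_range _).mono h1)
  obtain ⟨f, hf, h⟩ := mycielski
    (fun d => {x : Fin d → ℝ | LinearIndependent ℚ x} ∩
      {x | GoodV (Submodule.span ℚ {(1 : ℝ)} ⊔ Submodule.span ℚ (Set.range x))})
    (fun d => inter_mem (residual_linInd d)
      (residual_good d (Submodule.mem_span_singleton_self 1) good_one))
  exact ⟨f, hf, fun d x hx => (h d x hx).1, fun d x hx => (h d x hx).2⟩

theorem linInd {f : K → ℝ} (h : ∀ (d : ℕ) (x : Fin d → K), Function.Injective x →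
    LinearIndependent ℚ (fun i => f (x i))) : LinearIndependent ℚ f := by
  rw [linearIndependent_iff_finset_linearIndependent]
  intro s
  let e : Fin s.card ≃ s := s.equivFin.symm
  have h1 := h s.card (fun i => (e i).1) (Subtype.val_injective.comp e.injective)
  rw [← linearIndependent_equiv e]
  exact h1

/-- The subspace spanned by `1` and the values of `f`. -/
noncomputable def La (f : K → ℝ) : Submodule ℚ ℝ := Submodule.span ℚ {(1 : ℝ)} ⊔ Submodule.span ℚ (Set.range f)

theorem rank_La {f : K → ℝ} (h : LinearIndependent ℚ f) :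
    Module.rank ℚ (La f) = Cardinal.continuum := by
  apply le_antisymm
  · refine (rank_le_card ℚ (La f)).trans ?_
    refine (Cardinal.mk_le_of_injective Subtype.val_injective).trans ?_
    rw [Cardinal.mk_real]
  · have hmem : ∀ x, f x ∈ La f := fun x =>
      Submodule.mem_sup_right (Submodule.subset_span ⟨x, rfl⟩)
    let g : K → La f := fun x => ⟨f x, hmem x⟩
    have h1 : LinearIndependent ℚ g := by
      apply LinearIndependent.of_comp (La f).subtype
      exact h
    have h2 := h1.cardinal_le_rank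
    have h3 : Cardinal.mk K = Cardinal.continuum := by
      rw [← Cardinal.power_def, Cardinal.mk_bool, Cardinal.mk_nat, Cardinal.two_power_aleph0]
    rw [h3] at h2
    exact h2

theorem mem_fin {f : K → ℝ} {v : ℝ} (hv : v ∈ La f) : ∃ T : Finset K,
    v ∈ Submodule.span ℚ {(1 : ℝ)} ⊔ Submodule.span ℚ (f '' (T : Set K)) := by
  classical
  obtain ⟨a, ha, b, hb, rfl⟩ := Submodule.mem_sup.1 hv
  obtain ⟨T, hT, hbT⟩ := Submodule.mem_span_finite_of_mem_span hb
  have h1 : ∃ T' : Finset K, (T : Set ℝ) ⊆ f '' (T' : Set K) := by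
    have h2 : ∀ t : ℝ, ∃ x : K, t ∈ T → f x = t := by
      intro t
      by_cases ht : t ∈ T
      · obtain ⟨x, hx⟩ := hT ht
        exact ⟨x, fun _ => hx⟩
      · exact ⟨fun _ => false, fun h => absurd h ht⟩
    choose c hc using h2
    refine ⟨T.image c, fun t ht => ⟨c t, ?_, hc t ht⟩⟩
    exact Finset.mem_coe.2 (Finset.mem_image_of_mem c ht)
  obtain ⟨T', hT'⟩ := h1
  exact ⟨T', Submodule.add_mem _ (Submodule.mem_sup_left ha)
    (Submodule.mem_sup_right (Submodule.span_mono hT' hbT))⟩

theorem good_La {f : K → ℝ} (h : ∀ (d : ℕ) (x : Fin d → K), Function.Injective x →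
    GoodV (Submodule.span ℚ {(1 : ℝ)} ⊔ Submodule.span ℚ (Set.range fun i => f (x i)))) :
    GoodV (La f) := by
  classical
  apply Amen.of_locally
  intro S
  -- every element uses finitely many points of `K`
  have h1 : ∀ s : PTg (La f).toAddSubgroup (Set.Ico (0 : ℝ) 1), ∃ T : Finset K, ∀ y,
      s.1 y - y ∈ Submodule.span ℚ {(1 : ℝ)} ⊔ Submodule.span ℚ (f '' (T : Set K)) := by
    intro s
    obtain ⟨⟨B, hB⟩, hs2, -⟩ := mem_PTg.1 s.2
    have h2 : ∀ v : ℝ, ∃ T : Finset K, v ∈ La f →
        v ∈ Submodule.span ℚ {(1 : ℝ)} ⊔ Submodule.span ℚ (f '' (T : Set K)) := by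
      intro v
      by_cases hv : v ∈ La f
      · obtain ⟨T, hT⟩ := mem_fin hv
        exact ⟨T, fun _ => hT⟩
      · exact ⟨∅, fun h => absurd h hv⟩
    choose T hT using h2
    refine ⟨hB.finite_range.toFinset.biUnion T, fun y => ?_⟩
    have h3 := hT _ (hs2 y)
    have h4 : T (s.1 y - y) ⊆ hB.finite_range.toFinset.biUnion T := by
      apply Finset.subset_biUnion_of_mem T
      rw [Set.Finite.mem_toFinset]
      exact ⟨y, rfl⟩
    have h5 : Submodule.span ℚ (f '' (T (s.1 y - y) : Set K)) ≤
        Submodule.span ℚ (f '' ((hB.finite_range.toFinset.biUnion T : Finset K) : Set K)) :=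
      Submodule.span_mono (Set.image_mono (Finset.coe_subset.2 h4))
    exact sup_le_sup_left h5 _ h3
  choose T hT using h1
  let T0 : Finset K := S.biUnion T
  let e : Fin T0.card ≃ T0 := T0.equivFin.symm
  have h2 := h T0.card (fun i => (e i).1) (Subtype.val_injective.comp e.injective)
  have h3 : (Set.range fun i => f ((e i).1)) = f '' (T0 : Set K) := by
    ext v
    constructor
    · rintro ⟨i, rfl⟩
      exact ⟨(e i).1, (e i).2, rfl⟩
    · rintro ⟨x, hx, rfl⟩
      exact ⟨e.symm ⟨x, hx⟩, by simp⟩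
  rw [h3] at h2
  -- the subgroup generated by `S` embeds
  let V : Submodule ℚ ℝ := Submodule.span ℚ {(1 : ℝ)} ⊔ Submodule.span ℚ (f '' (T0 : Set K))
  have hV : Amen (PTg V.toAddSubgroup (Set.Ico (0 : ℝ) 1)) := h2
  have h4 : Subgroup.closure (S : Set (PTg (La f).toAddSubgroup (Set.Ico (0 : ℝ) 1))) ≤
      (PTg V.toAddSubgroup (Set.Ico (0 : ℝ) 1)).comap (Subgroup.subtype _) := by
    rw [Subgroup.closure_le]
    intro s hs
    rw [SetLike.mem_coe, Subgroup.mem_comap, Subgroup.coe_subtype, mem_PTg]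
    obtain ⟨hs1, -, hs3⟩ := mem_PTg.1 s.2
    refine ⟨hs1, fun y => ?_, hs3⟩
    have h5 := hT s y
    have h6 : T s ⊆ T0 := Finset.subset_biUnion_of_mem T hs
    have h7 : Submodule.span ℚ (f '' (T s : Set K)) ≤ Submodule.span ℚ (f '' (T0 : Set K)) :=
      Submodule.span_mono (Set.image_mono (Finset.coe_subset.2 h6))
    exact sup_le_sup_left h7 _ h5
  have h5 : Amen ((PTg V.toAddSubgroup (Set.Ico (0 : ℝ) 1)).comap
      (Subgroup.subtype (PTg (La f).toAddSubgroup (Set.Ico (0 : ℝ) 1)))) := by
    let φ : (PTg V.toAddSubgroup (Set.Ico (0 : ℝ) 1)).comap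
        (Subgroup.subtype (PTg (La f).toAddSubgroup (Set.Ico (0 : ℝ) 1))) →*
        PTg V.toAddSubgroup (Set.Ico (0 : ℝ) 1) :=
      { toFun := fun g => ⟨g.1.1, g.2⟩
        map_one' := rfl
        map_mul' := fun _ _ => rfl }
    apply Amen.of_injective φ _ hV
    intro a b hab
    apply Subtype.ext
    apply Subtype.ext
    exact congrArg (fun z => z.1) hab
  exact Amen.of_le h4 h5

end Pool.Agent.Lib.MP98125f.Perf
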