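import Mathlib
import Pool.Agent.Lib.MP_98125f_al.Baire

/-! # Interval exchange transformations and the rational case. -/

set_option autoImplicit false
set_option linter.deprecated false

namespace Pool.Agent.Lib.MP98125f

open Filter Topology

/-- The interval exchange transformations whose translations lie in `V`. -/
def IetSet (V : Submodule ℚ ℝ) : Set (Equiv.Perm (Set.Ico (0 : ℝ) 1)) :=
  {f | ∃ n : ℕ, ∃ a : Fin (n + 1) → ℝ, StrictMono a ∧ a 0 = 0 ∧ a (Fin.last n) = 1 ∧
    ∃ t : Fin n → ℝ, (∀ i, t i ∈ V) ∧ ∀ i : Fin n, ∀ x : Set.Ico (0 : ℝ) 1,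
      a i.castSucc ≤ x.1 → x.1 < a i.succ → (f x).1 = x.1 + t i}

theorem exists_index {n : ℕ} {a : Fin (n + 1) → ℝ} (h0 : a 0 = 0) (h1 : a (Fin.last n) = 1)
    {x : ℝ} (hx0 : 0 ≤ x) (hx1 : x < 1) : ∃ i : Fin n, a i.castSucc ≤ x ∧ x < a i.succ := by
  classical
  let T := (Finset.univ : Finset (Fin (n + 1))).filter (fun j => a j ≤ x)
  have hT : T.Nonempty := ⟨0, Finset.mem_filter.2 ⟨Finset.mem_univ _, by rw [h0]; exact hx0⟩⟩
  obtain ⟨j, hj, hmax⟩ := T.exists_max_image id hT
  have hj' := (Finset.mem_filter.1 hj).2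
  have hjl : j ≠ Fin.last n := by
    rintro rfl
    rw [h1] at hj'
    linarith
  obtain ⟨i, rfl⟩ := Fin.exists_castSucc_eq.2 hjl
  refine ⟨i, hj', ?_⟩
  by_contra hc
  have h2 := hmax i.succ (Finset.mem_filter.2 ⟨Finset.mem_univ _, not_lt.1 hc⟩)
  simp only [id] at h2
  exact absurd h2 (not_le.2 (Fin.castSucc_lt_succ))

theorem ofSubtype_mem {V : Submodule ℚ ℝ} {f : Equiv.Perm (Set.Ico (0 : ℝ) 1)}
    (hf : f ∈ IetSet V) : (Equiv.Perm.ofSubtype f : Equiv.Perm ℝ) ∈
      PTg V.toAddSubgroup (Set.Ico (0 : ℝ) 1) := by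
  classical
  obtain ⟨n, a, hmono, h0, h1, t, htV, ht⟩ := hf
  have hin : ∀ (x : ℝ) (hx : x ∈ Set.Ico (0 : ℝ) 1),
      (Equiv.Perm.ofSubtype f : Equiv.Perm ℝ) x = (f ⟨x, hx⟩).1 := by
    intro x hx
    exact Equiv.Perm.ofSubtype_apply_of_mem f hx
  have hout : ∀ x ∉ Set.Ico (0 : ℝ) 1, (Equiv.Perm.ofSubtype f : Equiv.Perm ℝ) x = x := by
    intro x hx
    exact Equiv.Perm.ofSubtype_apply_of_not_mem f hx
  refine ⟨⟨Finset.univ.image a, ?_⟩, ?_, hout⟩
  · intro x y hxy hno
    have hno' : ∀ j, ¬ (x < a j ∧ a j ≤ y) :=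
      fun j => hno _ (Finset.mem_image_of_mem _ (Finset.mem_univ j))
    by_cases hx : x ∈ Set.Ico (0 : ℝ) 1
    · have hy : y ∈ Set.Ico (0 : ℝ) 1 := by
        refine ⟨hx.1.trans hxy, ?_⟩
        by_contra hc
        apply hno' (Fin.last n)
        rw [h1]
        exact ⟨hx.2, not_lt.1 hc⟩
      obtain ⟨i, hi1, hi2⟩ := exists_index h0 h1 hx.1 hx.2
      have hy2 : y < a i.succ := by
        by_contra hc
        exact hno' i.succ ⟨hi2, not_lt.1 hc⟩
      rw [hin x hx, hin y hy, ht i ⟨x, hx⟩ hi1 hi2, ht i ⟨y, hy⟩ (hi1.trans hxy) hy2]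
      ring
    · have hy : y ∉ Set.Ico (0 : ℝ) 1 := by
        intro hy
        apply hx
        refine ⟨?_, lt_of_le_of_lt hxy hy.2⟩
        by_contra hc
        apply hno' 0
        rw [h0]
        exact ⟨not_le.1 hc, hy.1⟩
      rw [hout x hx, hout y hy]
      ring
  · intro x
    by_cases hx : x ∈ Set.Ico (0 : ℝ) 1
    · obtain ⟨i, hi1, hi2⟩ := exists_index h0 h1 hx.1 hx.2
      rw [hin x hx, ht i ⟨x, hx⟩ hi1 hi2, add_sub_cancel_left]
      exact htV i
    · rw [hout x hx, sub_self]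
      exact V.toAddSubgroup.zero_mem

/-- The group of interval exchanges with translations in `V` is amenable if `V` is good. -/
theorem amen_iet {V : Submodule ℚ ℝ} (hV : GoodV V) :
    Amen (Subgroup.closure (IetSet V)) := by
  classical
  have hle : Subgroup.closure (IetSet V) ≤ (PTg V.toAddSubgroup (Set.Ico (0 : ℝ) 1)).comap
      (Equiv.Perm.ofSubtype : Equiv.Perm (Set.Ico (0 : ℝ) 1) →* Equiv.Perm ℝ) := by
    rw [Subgroup.closure_le]
    intro f hf
    exact ofSubtype_mem hf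
  let φ : Subgroup.closure (IetSet V) →* PTg V.toAddSubgroup (Set.Ico (0 : ℝ) 1) :=
    ((Equiv.Perm.ofSubtype : Equiv.Perm (Set.Ico (0 : ℝ) 1) →* Equiv.Perm ℝ).comp
      (Subgroup.closure (IetSet V)).subtype).codRestrict _ (fun x => hle x.2)
  apply Amen.of_injective φ _ hV
  intro x y hxy
  apply Subtype.ext
  apply Equiv.Perm.ofSubtype_injective
  exact congrArg Subtype.val hxy

/-- The rational case. -/
theorem good_one : GoodV (Submodule.span ℚ {(1 : ℝ)}) := by
  classical
  apply Amen.of_locally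
  intro S
  let P := PTg (Submodule.span ℚ {(1 : ℝ)}).toAddSubgroup (Set.Ico (0 : ℝ) 1)
  let T : Finset (Equiv.Perm ℝ) := S.image (fun s => s.1)
  have hTP : ∀ h ∈ T, h ∈ P := by
    intro h hh
    obtain ⟨s, _, rfl⟩ := Finset.mem_image.1 hh
    exact s.2
  have h3 : Finite (Subgroup.closure (T : Set (Equiv.Perm ℝ))) := by
    -- rational displacements with a common denominator
    have h1 : ∀ s : Equiv.Perm ℝ, ∃ F : Finset ℚ, s ∈ T → ∀ y, ∃ q ∈ F, s y - y = (q : ℝ) := by
      intro s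
      by_cases hs : s ∈ T
      · have h2 := hTP s hs
        obtain ⟨B, hB⟩ := h2.1
        have h4 : ∀ v : ℝ, ∃ q : ℚ, v ∈ Set.range (fun y => s y - y) → v = (q : ℝ) := by
          intro v
          by_cases hv : v ∈ Set.range (fun y => s y - y)
          · obtain ⟨y, rfl⟩ := hv
            have h5 := h2.2.1 y
            have h6 : s y - y ∈ Submodule.span ℚ {(1 : ℝ)} := h5
            rw [Submodule.mem_span_singleton] at h6
            obtain ⟨q, hq⟩ := h6
            refine ⟨q, fun _ => ?_⟩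
            show s y - y = (q : ℝ)
            rw [← hq, Rat.smul_def, mul_one]
          · exact ⟨0, fun h => absurd h hv⟩
        choose c hc using h4
        refine ⟨hB.finite_range.toFinset.image c, fun _ y => ?_⟩
        refine ⟨c (s y - y), Finset.mem_image_of_mem _ ?_, hc _ ⟨y, rfl⟩⟩
        rw [Set.Finite.mem_toFinset]
        exact ⟨y, rfl⟩
      · exact ⟨∅, fun h => absurd h hs⟩
    choose F hF using h1
    obtain ⟨q, hq, hqF⟩ := exists_common_den (T.biUnion F)
    have hqR : (0 : ℝ) < q := by exact_mod_cast hq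
    let L' : AddSubgroup ℝ := AddSubgroup.zmultiples (1 / (q : ℝ))
    have hgen : ∀ s ∈ T, ∀ y, s y - y ∈ L' := by
      intro s hs y
      obtain ⟨r, hr, hy⟩ := hF s hs y
      obtain ⟨k, hk⟩ := hqF r (Finset.mem_biUnion.2 ⟨s, hs, hr⟩)
      rw [hy, hk]
      rw [AddSubgroup.mem_zmultiples_iff]
      refine ⟨k, ?_⟩
      rw [zsmul_eq_mul]
      push_cast
      ring
    have hall : ∀ h ∈ Subgroup.closure (T : Set (Equiv.Perm ℝ)),
        (∀ y ∉ Set.Ico (0 : ℝ) 1, h y = y) ∧ ∀ y, h y - y ∈ L' := by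
      intro h hh
      have h2 : Subgroup.closure (T : Set (Equiv.Perm ℝ)) ≤ PTg L' (Set.Ico (0 : ℝ) 1) := by
        rw [Subgroup.closure_le]
        intro s hs
        exact ⟨(hTP s hs).1, hgen s hs, (hTP s hs).2.2⟩
      exact ⟨(h2 hh).2.2, (h2 hh).2.1⟩
    have hmaps : ∀ h ∈ Subgroup.closure (T : Set (Equiv.Perm ℝ)), ∀ y ∈ Set.Ico (0 : ℝ) 1,
        h y ∈ Set.Ico (0 : ℝ) 1 := by
      intro h hh y hy
      by_contra hc
      have h1 := (hall h hh).1 _ hc
      rw [h.injective h1] at hc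
      exact hc hy
    apply finite_of_bounded_orbits (X := ℝ)
      (((↑) : Subgroup.closure (T : Set (Equiv.Perm ℝ)) → Equiv.Perm ℝ) ⁻¹' T)
      (T.finite_toSet.preimage Subtype.val_injective.injOn)
      (Subgroup.closure_closure_coe_preimage) (2 * q + 1)
    intro y
    have horb : MulAction.orbit (Subgroup.closure (T : Set (Equiv.Perm ℝ))) y ⊆
        ((Finset.Icc (-(q : ℤ)) q).image (fun k : ℤ => y + k * (1 / (q : ℝ))) : Finset ℝ) := by
      rintro _ ⟨h, rfl⟩
      show h.1 y ∈ _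
      obtain ⟨h1, h2⟩ := hall h.1 h.2
      rw [Finset.mem_coe, Finset.mem_image]
      by_cases hy : y ∈ Set.Ico (0 : ℝ) 1
      · have h4 := hmaps h.1 h.2 y hy
        obtain ⟨k, hk⟩ := AddSubgroup.mem_zmultiples_iff.1 (h2 y)
        rw [zsmul_eq_mul] at hk
        refine ⟨k, ?_, by rw [hk]; ring⟩
        rw [Finset.mem_Icc]
        have h5 : (k : ℝ) = (h.1 y - y) * q := by
          rw [← hk]; field_simp
        constructor
        · have : (-(q : ℝ)) ≤ k := by
            rw [h5]; nlinarith [h4.1, hy.2]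
          exact_mod_cast this
        · have : (k : ℝ) ≤ q := by
            rw [h5]; nlinarith [h4.2, hy.1]
          exact_mod_cast this
      · refine ⟨0, ?_, ?_⟩
        · rw [Finset.mem_Icc]; omega
        · rw [h1 y hy]; simp
    refine ⟨(Finset.finite_toSet _).subset horb, ?_⟩
    refine (Set.ncard_le_ncard horb (Finset.finite_toSet _)).trans ?_
    rw [Set.ncard_coe_finset]
    refine Finset.card_image_le.trans ?_
    rw [Int.card_Icc]
    omega
  have h4 : Finite (Subgroup.closure (S : Set P)) := by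
    have h5 : (T : Set (Equiv.Perm ℝ)) = P.subtype '' (S : Set P) := by
      simp [T, P]
    rw [h5, ← MonoidHom.map_closure] at h3
    exact Finite.of_injective ((Subgroup.closure (S : Set P)).equivMapOfInjective
        P.subtype P.subtype_injective).toMonoidHom (MulEquiv.injective _)
  exact Amen.of_finite _

end Pool.Agent.Lib.MP98125f
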